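import Mathlib

set_option autoImplicit false

/-!
# Averages over the linear orders of a finite set, and the tail estimate
-/

namespace Pool.Agent.K4H80.RP

open Finset

section Av
variable {C : Type} [DecidableEq C]

/-- the average of `F` over the orders (as lists) of the set `D` with `n` elements -/
noncomputable def av : ℕ → Finset C → (List C → ℝ) → ℝ
  | 0, _, F => F []
  | (n + 1), D, F => (∑ c ∈ D, av n (D.erase c) (fun L => F (c :: L))) / ((n : ℝ) + 1)

/-- `L` lists the elements of `D` in some order -/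
def Ord (D : Finset C) (L : List C) : Prop := L.Nodup ∧ L.toFinset = D

theorem Ord.length {D : Finset C} {L : List C} (h : Ord D L) : L.length = D.card := by
  rw [← h.2, List.toFinset_card_of_nodup h.1]

theorem Ord.cons {D : Finset C} {c : C} (hc : c ∈ D) {L : List C} (h : Ord (D.erase c) L) :
    Ord D (c :: L) := by
  refine ⟨?_, ?_⟩
  · rw [List.nodup_cons]
    refine ⟨?_, h.1⟩
    intro h1
    have : c ∈ L.toFinset := List.mem_toFinset.2 h1
    rw [h.2] at this
    exact absurd this (Finset.notMem_erase c D)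
  · rw [List.toFinset_cons, h.2, Finset.insert_erase hc]

theorem av_mono : ∀ (n : ℕ) (D : Finset C) (F G : List C → ℝ), D.card = n →
    (∀ L, Ord D L → F L ≤ G L) → av n D F ≤ av n D G := by
  intro n
  induction n with
  | zero =>
    intro D F G hD h
    rw [Finset.card_eq_zero] at hD
    subst hD
    exact h [] ⟨List.nodup_nil, rfl⟩
  | succ n ih =>
    intro D F G hD h
    simp only [av]
    apply div_le_div_of_nonneg_right _ (by positivity)
    apply Finset.sum_le_sum
    intro c hc
    apply ih
    · rw [Finset.card_erase_of_mem hc, hD]; rfl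
    · intro L hL
      exact h _ (hL.cons hc)

theorem av_congr (n : ℕ) (D : Finset C) (F G : List C → ℝ) (hD : D.card = n)
    (h : ∀ L, Ord D L → F L = G L) : av n D F = av n D G :=
  le_antisymm (av_mono n D F G hD (fun L hL => (h L hL).le))
    (av_mono n D G F hD (fun L hL => (h L hL).ge))

theorem av_add : ∀ (n : ℕ) (D : Finset C) (F G : List C → ℝ),
    av n D (fun L => F L + G L) = av n D F + av n D G := by
  intro n
  induction n with
  | zero => intro D F G; rfl
  | succ n ih =>
    intro D F G
    simp only [av, ih]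
    rw [Finset.sum_add_distrib, add_div]

theorem av_smul : ∀ (n : ℕ) (D : Finset C) (a : ℝ) (F : List C → ℝ),
    av n D (fun L => a * F L) = a * av n D F := by
  intro n
  induction n with
  | zero => intro D a F; rfl
  | succ n ih =>
    intro D a F
    simp only [av, ih]
    rw [← Finset.mul_sum, mul_div_assoc]

theorem av_const : ∀ (n : ℕ) (D : Finset C) (a : ℝ), D.card = n →
    av n D (fun _ => a) = a := by
  intro n
  induction n with
  | zero => intro D a _; rfl
  | succ n ih =>
    intro D a hD
    simp only [av]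
    rw [Finset.sum_congr rfl (fun c hc => ih (D.erase c) a (by
      rw [Finset.card_erase_of_mem hc, hD]; rfl))]
    rw [Finset.sum_const, hD, nsmul_eq_mul]
    push_cast
    field_simp

theorem av_zero (n : ℕ) (D : Finset C) (hD : D.card = n) : av n D (fun _ => (0 : ℝ)) = 0 :=
  av_const n D 0 hD

theorem av_sum {I : Type} (s : Finset I) (n : ℕ) (D : Finset C) (hD : D.card = n)
    (F : I → List C → ℝ) :
    av n D (fun L => ∑ i ∈ s, F i L) = ∑ i ∈ s, av n D (F i) := by
  classical
  induction s using Finset.induction_on with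
  | empty => simp [av_zero n D hD]
  | insert i s hi ih =>
    rw [Finset.sum_insert hi, ← ih, ← av_add]
    congr 1
    funext L
    rw [Finset.sum_insert hi]

theorem av_succ (n : ℕ) (D : Finset C) (F : List C → ℝ) :
    ((n : ℝ) + 1) * av (n + 1) D F = ∑ c ∈ D, av n (D.erase c) (fun L => F (c :: L)) := by
  simp only [av]
  field_simp

end Av

/-! ### the tail function -/

/-- rising factorial `(x + 1) ... (x + m)` -/
noncomputable def A (m x : ℕ) : ℝ := ((x + 1).ascFactorial m : ℕ)

theorem A_pos (m x : ℕ) : 0 < A m x := by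
  unfold A
  exact_mod_cast Nat.ascFactorial_pos x m

theorem A_eq (m x : ℕ) : A m x = ∏ i ∈ range m, ((x : ℝ) + 1 + i) := by
  unfold A
  rw [Nat.ascFactorial_eq_prod_range]
  push_cast
  rfl

theorem A_succ (m x : ℕ) : A m (x + 1) * ((x : ℝ) + 1) = A m x * ((x : ℝ) + 1 + m) := by
  rw [A_eq, A_eq]
  have h1 : (∏ i ∈ range m, (((x + 1 : ℕ) : ℝ) + 1 + i)) * ((x : ℝ) + 1) =
      ∏ i ∈ range (m + 1), ((x : ℝ) + 1 + i) := by
    rw [Finset.prod_range_succ']
    congr 1
    · apply Finset.prod_congr rfl
      intro i _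
      push_cast
      ring
    · push_cast
      ring
  rw [h1, Finset.prod_range_succ]

theorem A_mono (m : ℕ) {x y : ℕ} (h : x ≤ y) : A m x ≤ A m y := by
  rw [A_eq, A_eq]
  apply Finset.prod_le_prod
  · intro i _; positivity
  · intro i _
    have : (x : ℝ) ≤ y := by exact_mod_cast h
    linarith

/-- the supermartingale that bounds the probability that fewer than `m` of `s` special elements
are among the last `l` of `n` elements -/
noncomputable def Phi (l m n s : ℕ) : ℝ := A m n * A m (m - 1) / (A m s * A m l)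

theorem Phi_nonneg (l m n s : ℕ) : 0 ≤ Phi l m n s := by
  unfold Phi
  have h1 := A_pos m n
  have h2 := A_pos m (m - 1)
  have h3 := A_pos m s
  have h4 := A_pos m l
  positivity

theorem Phi_one {l m n s : ℕ} (hn : l ≤ n) (hs : s < m) : 1 ≤ Phi l m n s := by
  unfold Phi
  have h3 := A_pos m s
  have h4 := A_pos m l
  rw [one_le_div (by positivity)]
  have h1 : A m l ≤ A m n := A_mono m hn
  have h2 : A m s ≤ A m (m - 1) := A_mono m (by omega)
  calc A m s * A m l ≤ A m (m - 1) * A m n := by
        apply mul_le_mul h2 h1 h4.le (A_pos _ _).le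
    _ = _ := by ring

theorem Phi_mart (l m n s : ℕ) :
    ((s : ℝ) + 1) * Phi l m n s + ((n : ℝ) - s) * Phi l m n (s + 1) =
      ((n : ℝ) + 1) * Phi l m (n + 1) (s + 1) := by
  unfold Phi
  have h1 := A_succ m s
  have h2 := A_succ m n
  have p1 := A_pos m s
  have p2 := A_pos m (s + 1)
  have p3 := A_pos m l
  have hs : (0 : ℝ) < (s : ℝ) + 1 := by positivity
  have hn : (0 : ℝ) < (n : ℝ) + 1 := by positivity
  have hsm : (0 : ℝ) < (s : ℝ) + 1 + m := by positivity
  have e1 : A m s = A m (s + 1) * ((s : ℝ) + 1) / ((s : ℝ) + 1 + m) := by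
    field_simp
    linarith
  have e2 : A m (n + 1) = A m n * ((n : ℝ) + 1 + m) / ((n : ℝ) + 1) := by
    field_simp
    linarith
  rw [e2, e1]
  field_simp
  ring

theorem Phi_small {l m q s t : ℕ} (ht : 1 ≤ t) (hq : q ≤ t * l) (hs : 4 * t * m ≤ s) :
    Phi l m q s ≤ (1 / 2 : ℝ) ^ m := by
  unfold Phi
  have h3 := A_pos m s
  have h4 := A_pos m l
  rw [div_le_iff₀ (by positivity)]
  rw [A_eq m q, A_eq m (m - 1), A_eq m s, A_eq m l, ← Finset.prod_mul_distrib,
    ← Finset.prod_mul_distrib]
  have : (1 / 2 : ℝ) ^ m = ∏ _i ∈ range m, (1 / 2 : ℝ) := by simp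
  rw [this, ← Finset.prod_mul_distrib]
  apply Finset.prod_le_prod
  · intro i _; positivity
  · intro i hi
    rw [Finset.mem_range] at hi
    have hm : 1 ≤ m := by omega
    have e1 : ((m - 1 : ℕ) : ℝ) + 1 = m := by
      rw [Nat.cast_sub hm]; push_cast; ring
    rw [e1]
    have a1 : (q : ℝ) ≤ t * l := by exact_mod_cast hq
    have a2 : (4 : ℝ) * t * m ≤ s := by exact_mod_cast hs
    have a3 : (i : ℝ) ≤ m := by exact_mod_cast hi.le
    have a4 : (1 : ℝ) ≤ t := by exact_mod_cast ht
    have a5 : (0 : ℝ) ≤ l := by positivity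
    have a6 : (0 : ℝ) ≤ i := by positivity
    have b1 : (q : ℝ) + 1 + i ≤ t * ((l : ℝ) + 1 + i) := by nlinarith
    have b2 : (m : ℝ) + i ≤ 2 * m := by linarith
    have b3 : (4 : ℝ) * t * m ≤ (s : ℝ) + 1 + i := by linarith
    calc ((q : ℝ) + 1 + i) * ((m : ℝ) + i) ≤ (t * ((l : ℝ) + 1 + i)) * (2 * m) := by
          apply mul_le_mul b1 b2 (by positivity) (by positivity)
      _ = 1 / 2 * ((4 * t * m) * ((l : ℝ) + 1 + i)) := by ring
      _ ≤ 1 / 2 * (((s : ℝ) + 1 + i) * ((l : ℝ) + 1 + i)) := by
          apply mul_le_mul_of_nonneg_left _ (by norm_num)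
          apply mul_le_mul_of_nonneg_right b3 (by positivity)

end Pool.Agent.K4H80.RP
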