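import Pool.Agent.K4H80.RP.Hits

set_option autoImplicit false

/-!
# Counting over all starting points
-/

namespace Pool.Agent.K4H80.RP

open Finset

variable {V C : Type} [DecidableEq V] [DecidableEq C]

section
variable (G : Host V C) (b : ℕ → Bool) (l m K : ℕ)

theorem tr_per {p : ℕ} (hb : ∀ i, b (i + p) = b i) : ∀ (L : List C) (v : V) (φ : ℕ),
    tr G b l v (φ + p) L = tr G b l v φ L := by
  intro L
  induction L with
  | nil => intro v φ; rfl
  | cons c L ih =>
    intro v φ
    have h : nx G b v (φ + p) c = nx G b v φ c := by simp [nx, hb]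
    simp only [tr, h]
    rw [show φ + p + 1 = φ + 1 + p by ring, ih, ih]

theorem Ev_per {p : ℕ} (hb : ∀ i, b (i + p) = b i) : ∀ (L : List C) (v : V) (φ : ℕ),
    Ev G b l m K v (φ + p) L = Ev G b l m K v φ L := by
  intro L
  induction L with
  | nil => intro v φ; rfl
  | cons c L ih =>
    intro v φ
    have h : nx G b v (φ + p) c = nx G b v φ c := by simp [nx, hb]
    simp only [Ev, ee, h]
    rw [show φ + p + 1 = φ + 1 + p by ring, ih, ih, tr_per G b l hb]

variable [Fintype V]

/-- the vertices that see the colour `c` -/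
def sat (c : C) : Finset V := univ.filter (fun v => c ∈ G.S v)

theorem sum_inv (c : C) (f : V → ℝ) : ∑ v ∈ sat G c, f (G.mv v c) = ∑ v ∈ sat G c, f v := by
  apply Finset.sum_nbij' (fun v => G.mv v c) (fun v => G.mv v c)
  · intro v hv
    simp only [sat, mem_filter, mem_univ, true_and] at hv ⊢
    exact G.mem v c hv
  · intro v hv
    simp only [sat, mem_filter, mem_univ, true_and] at hv ⊢
    exact G.mem v c hv
  · intro v hv
    simp only [sat, mem_filter, mem_univ, true_and] at hv
    exact G.inv v c hv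
  · intro v hv
    simp only [sat, mem_filter, mem_univ, true_and] at hv
    exact G.inv v c hv
  · intro v hv
    rfl

theorem sum_shift (p : ℕ) (g : ℕ → ℝ) (hg : g p = g 0) :
    ∑ φ ∈ range p, g (φ + 1) = ∑ φ ∈ range p, g φ := by
  have h1 := Finset.sum_range_succ g p
  have h2 := Finset.sum_range_succ' g p
  linarith

theorem transport {p : ℕ} (c : C) (F : V → ℕ → ℝ) (hF : ∀ v, F v p = F v 0) :
    ∑ φ ∈ range p, ∑ v ∈ sat G c, F (nx G b v φ c) (φ + 1) =
      ∑ φ ∈ range p, ∑ v ∈ sat G c, F v φ := by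
  have h1 : ∀ φ, ∑ v ∈ sat G c, F (nx G b v φ c) (φ + 1) = ∑ v ∈ sat G c, F v (φ + 1) := by
    intro φ
    by_cases hbφ : b φ = true
    · rw [← sum_inv G c (fun v => F v (φ + 1))]
      apply Finset.sum_congr rfl
      intro v _
      simp [nx, hbφ]
    · apply Finset.sum_congr rfl
      intro v _
      simp [nx, hbφ]
  rw [Finset.sum_congr rfl (fun φ _ => h1 φ)]
  apply sum_shift p (fun φ => ∑ v ∈ sat G c, F v φ)
  apply Finset.sum_congr rfl
  intro v _
  exact hF v

/-- total number of arrivals -/
noncomputable def TT (p : ℕ) (L : List C) : ℝ :=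
  ∑ φ ∈ range p, ∑ v : V, ((tr G b l v φ L).length : ℝ)

/-- total number of events -/
noncomputable def WW (p : ℕ) (L : List C) : ℝ :=
  ∑ φ ∈ range p, ∑ v : V, (Ev G b l m K v φ L : ℝ)

theorem split_sat (c : C) (f g : V → ℝ) :
    ∑ v : V, (if c ∈ G.S v then f v else g v) =
      ∑ v ∈ sat G c, f v + (∑ v : V, g v - ∑ v ∈ sat G c, g v) := by
  unfold sat
  rw [Finset.sum_filter, Finset.sum_filter, ← Finset.sum_sub_distrib, ← Finset.sum_add_distrib]
  apply Finset.sum_congr rfl
  intro v _
  split_ifs <;> ring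

theorem TT_cons {p : ℕ} (hb : ∀ i, b (i + p) = b i) (c : C) (L : List C) (h : ¬ L.length < l) :
    TT G b l p (c :: L) = p * (sat G c).card + TT G b l p L := by
  unfold TT
  have h1 : ∀ φ, ∑ v : V, ((tr G b l v φ (c :: L)).length : ℝ) =
      (sat G c).card + ∑ v ∈ sat G c, ((tr G b l (nx G b v φ c) (φ + 1) L).length : ℝ) +
      (∑ v : V, ((tr G b l v φ L).length : ℝ) - ∑ v ∈ sat G c, ((tr G b l v φ L).length : ℝ)) := by
    intro φ
    have h2 : ∀ v : V, ((tr G b l v φ (c :: L)).length : ℝ) =
        if c ∈ G.S v then 1 + ((tr G b l (nx G b v φ c) (φ + 1) L).length : ℝ)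
        else ((tr G b l v φ L).length : ℝ) := by
      intro v
      simp only [tr, h, if_false]
      split_ifs
      · rw [List.length_cons]; push_cast; ring
      · rfl
    rw [Finset.sum_congr rfl (fun v _ => h2 v), split_sat, Finset.sum_add_distrib]
    simp
  rw [Finset.sum_congr rfl (fun φ _ => h1 φ), Finset.sum_add_distrib, Finset.sum_add_distrib,
    Finset.sum_sub_distrib,
    transport G b c (fun v φ => ((tr G b l v φ L).length : ℝ)) (by
      intro v
      have := tr_per G b l hb L v 0
      rw [zero_add] at this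
      simp only [this])]
  simp only [Finset.sum_const, Finset.card_range, nsmul_eq_mul]
  ring

theorem TT_cons' {p : ℕ} (c : C) (L : List C) (h : L.length < l) :
    TT G b l p (c :: L) = 0 := by
  unfold TT
  simp [tr, h]

theorem WW_cons {p : ℕ} (hb : ∀ i, b (i + p) = b i) (c : C) (L : List C) (h : ¬ L.length < l) :
    WW G b l m K p (c :: L) =
      ∑ φ ∈ range p, ∑ v ∈ sat G c, (ee G b l m K v φ c L : ℝ) + WW G b l m K p L := by
  unfold WW
  have h1 : ∀ φ, ∑ v : V, (Ev G b l m K v φ (c :: L) : ℝ) =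
      ∑ v ∈ sat G c, (ee G b l m K v φ c L : ℝ) +
      ∑ v ∈ sat G c, (Ev G b l m K (nx G b v φ c) (φ + 1) L : ℝ) +
      (∑ v : V, (Ev G b l m K v φ L : ℝ) - ∑ v ∈ sat G c, (Ev G b l m K v φ L : ℝ)) := by
    intro φ
    have h2 : ∀ v : V, (Ev G b l m K v φ (c :: L) : ℝ) =
        if c ∈ G.S v then (ee G b l m K v φ c L : ℝ) + (Ev G b l m K (nx G b v φ c) (φ + 1) L : ℝ)
        else (Ev G b l m K v φ L : ℝ) := by
      intro v
      simp only [Ev, h, if_false]
      split_ifs
      · push_cast; ring
      · rfl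
    rw [Finset.sum_congr rfl (fun v _ => h2 v), split_sat, Finset.sum_add_distrib]
  rw [Finset.sum_congr rfl (fun φ _ => h1 φ), Finset.sum_add_distrib, Finset.sum_add_distrib,
    Finset.sum_sub_distrib,
    transport G b c (fun v φ => (Ev G b l m K v φ L : ℝ)) (by
      intro v
      have := Ev_per G b l m K hb L v 0
      rw [zero_add] at this
      simp only [this])]
  ring

theorem WW_cons' {p : ℕ} (c : C) (L : List C) (h : L.length < l) :
    WW G b l m K p (c :: L) = 0 := by
  unfold WW
  simp [Ev, h]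

/-- the sum of the numbers of colours of `D` at the vertices -/
noncomputable def EE (D : Finset C) : ℝ := ∑ v : V, ((D ∩ G.S v).card : ℝ)

theorem card_inter_eq (D : Finset C) (v : V) :
    ((D ∩ G.S v).card : ℝ) = ∑ c ∈ D, (if c ∈ G.S v then (1 : ℝ) else 0) := by
  rw [← Finset.sum_filter, Finset.sum_const, nsmul_eq_mul, mul_one]
  congr 2

theorem sum_sat (D : Finset C) (f : V → ℝ) :
    ∑ c ∈ D, ∑ v ∈ sat G c, f v = ∑ v : V, ((D ∩ G.S v).card : ℝ) * f v := by
  have h1 : ∀ c, ∑ v ∈ sat G c, f v = ∑ v : V, (if c ∈ G.S v then f v else 0) := by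
    intro c
    unfold sat
    rw [Finset.sum_filter]
  rw [Finset.sum_congr rfl (fun c _ => h1 c), Finset.sum_comm]
  apply Finset.sum_congr rfl
  intro v _
  rw [card_inter_eq, Finset.sum_mul]
  apply Finset.sum_congr rfl
  intro c _
  split_ifs <;> ring

theorem card_erase_inter (D : Finset C) (v : V) (c : C) (hc : c ∈ D) (f : ℕ → ℝ) :
    f ((D.erase c ∩ G.S v).card) =
      if c ∈ G.S v then f ((D ∩ G.S v).card - 1) else f ((D ∩ G.S v).card) := by
  split_ifs with h
  · congr 1
    rw [← Finset.card_erase_of_mem (Finset.mem_inter.2 ⟨hc, h⟩)]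
    congr 1
    ext x
    simp only [mem_inter, mem_erase]
    tauto
  · congr 2
    ext x
    simp only [mem_inter, mem_erase]
    constructor
    · rintro ⟨⟨_, h1⟩, h2⟩; exact ⟨h1, h2⟩
    · rintro ⟨h1, h2⟩
      refine ⟨⟨?_, h1⟩, h2⟩
      rintro rfl
      exact h h2

theorem sum_erase (D : Finset C) (v : V) (f : ℕ → ℝ) :
    ∑ c ∈ D, f ((D.erase c ∩ G.S v).card) =
      ((D ∩ G.S v).card : ℝ) * f ((D ∩ G.S v).card - 1) +
        ((D.card : ℝ) - (D ∩ G.S v).card) * f ((D ∩ G.S v).card) := by
  rw [Finset.sum_congr rfl (fun c hc => card_erase_inter G D v c hc f)]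
  have h : ∀ c ∈ D, (if c ∈ G.S v then f ((D ∩ G.S v).card - 1) else f ((D ∩ G.S v).card)) =
      (if c ∈ G.S v then (1 : ℝ) else 0) *
        (f ((D ∩ G.S v).card - 1) - f ((D ∩ G.S v).card)) + f ((D ∩ G.S v).card) := by
    intro c _
    split_ifs <;> ring
  rw [Finset.sum_congr rfl h, Finset.sum_add_distrib, ← Finset.sum_mul, ← card_inter_eq,
    Finset.sum_const, nsmul_eq_mul]
  ring

theorem EE_erase (n : ℕ) (D : Finset C) (hD : D.card = n + 1) :
    ∑ c ∈ D, EE G (D.erase c) = n * EE G D := by
  unfold EE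
  rw [Finset.sum_comm, Finset.mul_sum]
  apply Finset.sum_congr rfl
  intro v _
  have h := sum_erase G D v (fun x => (x : ℝ))
  rw [h, hD]
  rcases Nat.eq_zero_or_pos (D ∩ G.S v).card with h0 | h0
  · rw [h0]; simp
  · rw [Nat.cast_sub h0]
    push_cast
    ring

theorem av_TT {p : ℕ} (hb : ∀ i, b (i + p) = b i) : ∀ (n : ℕ) (D : Finset C), D.card = n →
    l ≤ n → av n D (TT G b l p) = p * EE G D * ((n : ℝ) - l) / n := by
  intro n
  induction n with
  | zero =>
    intro D _ _
    simp [av, TT, tr]
  | succ n ih =>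
    intro D hD hl
    have hn1 : (0 : ℝ) < (n : ℝ) + 1 := by positivity
    have hs := av_succ n D (TT G b l p)
    have hcard : ∀ c ∈ D, (D.erase c).card = n := by
      intro c hc
      rw [Finset.card_erase_of_mem hc, hD]; rfl
    by_cases hnl : n < l
    · have hl' : l = n + 1 := by omega
      have h1 : ∑ c ∈ D, av n (D.erase c) (fun L => TT G b l p (c :: L)) = 0 := by
        apply Finset.sum_eq_zero
        intro c hc
        rw [av_congr n (D.erase c) _ (fun _ => (0 : ℝ)) (hcard c hc), av_zero n _ (hcard c hc)]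
        intro L hL
        apply TT_cons'
        rw [hL.length, hcard c hc]; exact hnl
      rw [h1] at hs
      have h2 : av (n + 1) D (TT G b l p) = 0 := by
        rcases mul_eq_zero.1 hs with h | h
        · exfalso; linarith
        · exact h
      rw [h2, hl']
      simp
    · push Not at hnl
      have h1 : ∀ c ∈ D, av n (D.erase c) (fun L => TT G b l p (c :: L)) =
          p * (sat G c).card + p * EE G (D.erase c) * ((n : ℝ) - l) / n := by
        intro c hc
        rw [av_congr n (D.erase c) _ (fun L => (p * (sat G c).card : ℝ) + TT G b l p L)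
          (hcard c hc), av_add, av_const _ _ _ (hcard c hc), ih _ (hcard c hc) hnl]
        intro L hL
        apply TT_cons G b l hb
        rw [hL.length, hcard c hc]; omega
      rw [Finset.sum_congr rfl h1, Finset.sum_add_distrib] at hs
      have h2 : ∑ c ∈ D, (p * (sat G c).card : ℝ) = p * EE G D := by
        rw [← Finset.mul_sum]
        congr 1
        have := sum_sat G D (fun _ => (1 : ℝ))
        simp only [Finset.sum_const, nsmul_eq_mul, mul_one] at this
        exact this
      have h3 : ∑ c ∈ D, p * EE G (D.erase c) * ((n : ℝ) - l) / n =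
          p * (n * EE G D) * ((n : ℝ) - l) / n := by
        rw [← EE_erase G n D hD, Finset.mul_sum, Finset.sum_mul, Finset.sum_div]
      rw [h2, h3] at hs
      have h4 : av (n + 1) D (TT G b l p) =
          (p * EE G D + p * (n * EE G D) * ((n : ℝ) - l) / n) / ((n : ℝ) + 1) := by
        rw [eq_div_iff hn1.ne']
        linarith
      rw [h4]
      push_cast
      rcases Nat.eq_zero_or_pos n with h0 | h0
      · subst h0
        have hl0 : l = 0 := by omega
        subst hl0
        simp
      · have : (0 : ℝ) < n := by exact_mod_cast h0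
        field_simp
        ring

end

section
variable (G : Host V C) (b : ℕ → Bool) (l m : ℕ) {dst : V → V → ℕ} (hG : CubeLike G dst)
variable [Fintype V]

include hG in
theorem av_WW (hm : 4 ≤ m) (p : ℕ) (hb : ∀ i, b (i + p) = b i) (hbt : ∃ i, b i = true)
    (hp : 1 ≤ p) (K : ℕ) : ∀ (n : ℕ) (D : Finset C), D.card = n →
    av n D (WW G b l m K p) ≤
      p * ∑ v : V, ((D ∩ G.S v).card : ℝ) * (Phi l m n (D ∩ G.S v).card + 2 * BB m p K) := by
  have hB := BB_nonneg m p K
  have hpos : ∀ (n : ℕ) (D : Finset C), (0 : ℝ) ≤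
      p * ∑ v : V, ((D ∩ G.S v).card : ℝ) * (Phi l m n (D ∩ G.S v).card + 2 * BB m p K) := by
    intro n D
    apply mul_nonneg (by positivity)
    apply Finset.sum_nonneg
    intro v _
    have := Phi_nonneg l m n (D ∩ G.S v).card
    positivity
  intro n
  induction n with
  | zero =>
    intro D _
    have h0 : av 0 D (WW G b l m K p) = 0 := by simp [av, WW, Ev]
    rw [h0]
    exact hpos 0 D
  | succ n ih =>
    intro D hD
    have hn1 : (0 : ℝ) < (n : ℝ) + 1 := by positivity
    have hs := av_succ n D (WW G b l m K p)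
    have hcard : ∀ c ∈ D, (D.erase c).card = n := by
      intro c hc
      rw [Finset.card_erase_of_mem hc, hD]; rfl
    by_cases hnl : n < l
    · have h1 : ∑ c ∈ D, av n (D.erase c) (fun L => WW G b l m K p (c :: L)) = 0 := by
        apply Finset.sum_eq_zero
        intro c hc
        rw [av_congr n (D.erase c) _ (fun _ => (0 : ℝ)) (hcard c hc), av_zero n _ (hcard c hc)]
        intro L hL
        apply WW_cons'
        rw [hL.length, hcard c hc]; exact hnl
      rw [h1] at hs
      have h2 : av (n + 1) D (WW G b l m K p) = 0 := by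
        rcases mul_eq_zero.1 hs with h | h
        · exfalso; linarith
        · exact h
      rw [h2]
      exact hpos _ D
    · push Not at hnl
      have h1 : ∀ c ∈ D, av n (D.erase c) (fun L => WW G b l m K p (c :: L)) ≤
          p * ∑ v ∈ sat G c, ((if (D ∩ G.S v).card < m then (1 : ℝ) else 0) + 2 * BB m p K) +
          p * ∑ v : V, ((D.erase c ∩ G.S v).card : ℝ) *
            (Phi l m n (D.erase c ∩ G.S v).card + 2 * BB m p K) := by
        intro c hc
        rw [av_congr n (D.erase c) _
          (fun L => (∑ φ ∈ range p, ∑ v ∈ sat G c, (ee G b l m K v φ c L : ℝ)) +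
            WW G b l m K p L) (hcard c hc), av_add]
        · apply add_le_add _ (ih _ (hcard c hc))
          rw [av_sum _ n (D.erase c) (hcard c hc)]
          have h5 : ∀ φ ∈ range p, av n (D.erase c)
              (fun L => ∑ v ∈ sat G c, (ee G b l m K v φ c L : ℝ)) ≤
              ∑ v ∈ sat G c, ((if (D ∩ G.S v).card < m then (1 : ℝ) else 0) + 2 * BB m p K) := by
            intro φ _
            rw [av_sum _ n (D.erase c) (hcard c hc)]
            apply Finset.sum_le_sum
            intro v hv
            simp only [sat, mem_filter, mem_univ, true_and] at hv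
            exact ee_bound G b l m hG hm p hb hbt hp n D hD v φ K c hc hv
          refine (Finset.sum_le_sum h5).trans ?_
          rw [Finset.sum_const, Finset.card_range, nsmul_eq_mul]
        · intro L hL
          apply WW_cons G b l m K hb
          rw [hL.length, hcard c hc]; omega
      have h2 := Finset.sum_le_sum h1
      rw [← hs, Finset.sum_add_distrib, ← Finset.mul_sum, ← Finset.mul_sum, sum_sat G D
        (fun v => ((if (D ∩ G.S v).card < m then (1 : ℝ) else 0) + 2 * BB m p K)),
        Finset.sum_comm (s := D) (t := (univ : Finset V)), ← mul_add,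
        ← Finset.sum_add_distrib] at h2
      have h3 : ∀ v ∈ (univ : Finset V), ((D ∩ G.S v).card : ℝ) *
          ((if (D ∩ G.S v).card < m then (1 : ℝ) else 0) + 2 * BB m p K) +
          ∑ c ∈ D, ((D.erase c ∩ G.S v).card : ℝ) *
            (Phi l m n (D.erase c ∩ G.S v).card + 2 * BB m p K) ≤
          ((n : ℝ) + 1) * (((D ∩ G.S v).card : ℝ) *
            (Phi l m (n + 1) (D ∩ G.S v).card + 2 * BB m p K)) := by
        intro v _
        rw [sum_erase G D v (fun x => (x : ℝ) * (Phi l m n x + 2 * BB m p K)), hD]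
        have hsn : (D ∩ G.S v).card ≤ n + 1 := by
          rw [← hD]; exact Finset.card_le_card Finset.inter_subset_left
        generalize (D ∩ G.S v).card = s at hsn ⊢
        rcases s with _ | s
        · simp
        · have e1 := Phi_mart l m n s
          have e2 : (if s + 1 < m then (1 : ℝ) else 0) ≤ Phi l m n s := by
            split_ifs with h
            · exact Phi_one hnl (by omega)
            · exact Phi_nonneg _ _ _ _
          simp only [Nat.add_sub_cancel]
          push_cast
          have e3 : (0 : ℝ) ≤ (s : ℝ) + 1 := by positivity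
          have e4 := mul_le_mul_of_nonneg_left e2 e3
          have e5 : ((s : ℝ) + 1) * ((if s + 1 < m then (1 : ℝ) else 0) + 2 * BB m p K) +
              (((s : ℝ) + 1) * (s * (Phi l m n s + 2 * BB m p K)) +
              ((n : ℝ) + 1 - (s + 1)) * ((s + 1) * (Phi l m n (s + 1) + 2 * BB m p K))) =
              ((s : ℝ) + 1) * (if s + 1 < m then (1 : ℝ) else 0) +
              ((s : ℝ) + 1) * ((((s : ℝ) + 1) * Phi l m n s + ((n : ℝ) - s) * Phi l m n (s + 1)) -
                Phi l m n s) + ((s : ℝ) + 1) * ((n : ℝ) + 1) * (2 * BB m p K) := by ring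
          rw [e5, e1]
          linarith
      have h4 := Finset.sum_le_sum h3
      rw [← Finset.mul_sum] at h4
      have h5 : ((n : ℝ) + 1) * av (n + 1) D (WW G b l m K p) ≤ ((n : ℝ) + 1) *
          (p * ∑ v : V, ((D ∩ G.S v).card : ℝ) *
            (Phi l m (n + 1) (D ∩ G.S v).card + 2 * BB m p K)) := by
        refine h2.trans ?_
        calc _ ≤ (p : ℝ) * (((n : ℝ) + 1) * ∑ v : V, ((D ∩ G.S v).card : ℝ) *
            (Phi l m (n + 1) (D ∩ G.S v).card + 2 * BB m p K)) :=
              mul_le_mul_of_nonneg_left h4 (by positivity)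
          _ = _ := by ring
      exact le_of_mul_le_mul_left h5 hn1

include hG in
/-- the main inequality -/
theorem count_main [Inhabited C] (hm : 4 ≤ m) (p : ℕ) (hb : ∀ i, b (i + p) = b i)
    (hbt : ∃ i, b i = true) (hp : 1 ≤ p) (k t q : ℕ) (hno : ¬ HasCopy G b k)
    (D : Finset C) (hD : D.card = q) (hlq : l ≤ q) (hq0 : 0 < q) (hql : q ≤ t * l) (ht : 1 ≤ t)
    (hS : ∀ v, G.S v ⊆ D) (hdeg : ∀ v, 4 * t * m ≤ (G.S v).card) :
    (∑ v : V, ((G.S v).card : ℝ)) * (1 - l / q) ≤
      Fintype.card V * ((k : ℝ) + p) +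
        ((k : ℝ) + p) * ((∑ v : V, ((G.S v).card : ℝ)) * ((1 / 2 : ℝ) ^ m + 2 * BB m p k)) := by
  have hDS : ∀ v, D ∩ G.S v = G.S v := fun v => Finset.inter_eq_right.2 (hS v)
  have hEE : EE G D = ∑ v : V, ((G.S v).card : ℝ) := by
    unfold EE
    apply Finset.sum_congr rfl
    intro v _
    rw [hDS]
  have h1 := av_TT G b l hb q D hD hlq
  have h2 := av_WW G b l m hG hm p hb hbt hp k q D hD
  have h3 : av q D (TT G b l p) ≤
      av q D (fun L => (p : ℝ) * (Fintype.card V * ((k : ℝ) + p)) +
        ((k : ℝ) + p) * WW G b l m k p L) := by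
    apply av_mono q D _ _ hD
    intro L hL
    have h4 : ∀ φ ∈ range p, ∑ v : V, ((tr G b l v φ L).length : ℝ) ≤
        (Fintype.card V * ((k : ℝ) + p)) + ((k : ℝ) + p) * ∑ v : V, (Ev G b l m k v φ L : ℝ) := by
      intro φ _
      rw [Finset.mul_sum, show (Fintype.card V * ((k : ℝ) + p)) = ∑ _v : V, ((k : ℝ) + p) by
        rw [Finset.sum_const, nsmul_eq_mul]; rfl, ← Finset.sum_add_distrib]
      apply Finset.sum_le_sum
      intro v _
      have h5 := pointwise G b l m k le_rfl hp hb hno _ L v φ hL.1 le_rfl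
      have h6 : (tr G b l v φ L).length ≤ (k + p) + (k + p) * Ev G b l m k v φ L := by omega
      exact_mod_cast h6
    unfold TT WW
    refine (Finset.sum_le_sum h4).trans ?_
    rw [Finset.sum_add_distrib, Finset.sum_const, Finset.card_range, nsmul_eq_mul,
      ← Finset.mul_sum]
  rw [av_add, av_const _ _ _ hD, av_smul, h1, hEE] at h3
  have h7 : ∑ v : V, ((D ∩ G.S v).card : ℝ) * (Phi l m q (D ∩ G.S v).card + 2 * BB m p k) ≤
      (∑ v : V, ((G.S v).card : ℝ)) * ((1 / 2 : ℝ) ^ m + 2 * BB m p k) := by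
    rw [Finset.sum_mul]
    apply Finset.sum_le_sum
    intro v _
    rw [hDS]
    apply mul_le_mul_of_nonneg_left _ (by positivity)
    have := Phi_small (m := m) ht hql (hdeg v)
    linarith
  have hp0 : (0 : ℝ) < p := by exact_mod_cast hp
  have hq0' : (0 : ℝ) < q := by exact_mod_cast hq0
  have hkp : (0 : ℝ) ≤ (k : ℝ) + p := by positivity
  have h8 := mul_le_mul_of_nonneg_left h2 hkp
  have h9 := mul_le_mul_of_nonneg_left (mul_le_mul_of_nonneg_left h7 hp0.le) hkp
  have h10 : (p : ℝ) * ((∑ v : V, ((G.S v).card : ℝ)) * (1 - l / q)) ≤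
      p * (Fintype.card V * ((k : ℝ) + p) +
        ((k : ℝ) + p) * ((∑ v : V, ((G.S v).card : ℝ)) * ((1 / 2 : ℝ) ^ m + 2 * BB m p k))) := by
    have e1 : (p : ℝ) * ((∑ v : V, ((G.S v).card : ℝ)) * (1 - l / q)) =
        p * (∑ v : V, ((G.S v).card : ℝ)) * ((q : ℝ) - l) / q := by
      field_simp
    rw [e1]
    linarith
  exact le_of_mul_le_mul_left h10 hp0

end

end Pool.Agent.K4H80.RP
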