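import Pool.Agent.K4H80.RP.Count
import Pool.Agent.V11174.RES.Greedy

set_option autoImplicit false

/-!
# Subgraphs of the cube
-/

namespace Pool.Agent.K4H80.RP

open Finset V11174.RES

/-! ### the host on a vertex set -/

section Host
variable {n : ℕ} (H : SimpleGraph (Fin n → Bool)) (φ : Sym2 (Fin n → Bool) → ℕ)
  (U : Finset (Fin n → Bool))

open Classical in
/-- the colours at a vertex -/
noncomputable def colS (v : U) : Finset ℕ :=
  (U.filter (fun w => H.Adj v.1 w)).image (fun w => φ s(v.1, w))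

theorem mem_colS (v : U) (c : ℕ) :
    c ∈ colS H φ U v ↔ ∃ w : U, H.Adj v.1 w.1 ∧ φ s(v.1, w.1) = c := by
  classical
  unfold colS
  rw [Finset.mem_image]
  constructor
  · rintro ⟨w, hw, rfl⟩
    rw [Finset.mem_filter] at hw
    exact ⟨⟨w, hw.1⟩, hw.2, rfl⟩
  · rintro ⟨w, hw, rfl⟩
    exact ⟨w.1, Finset.mem_filter.2 ⟨w.2, hw⟩, rfl⟩

open Classical in
/-- the neighbour along a colour -/
noncomputable def colM (v : U) (c : ℕ) : U :=
  if h : ∃ w : U, H.Adj v.1 w.1 ∧ φ s(v.1, w.1) = c then h.choose else v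

variable {H φ U}

theorem colM_spec {v : U} {c : ℕ} (h : c ∈ colS H φ U v) :
    H.Adj v.1 (colM H φ U v c).1 ∧ φ s(v.1, (colM H φ U v c).1) = c := by
  rw [mem_colS] at h
  unfold colM
  rw [dif_pos h]
  exact h.choose_spec

theorem colM_eq (hφ : IsProper H φ) {v w : U} {c : ℕ} (h1 : H.Adj v.1 w.1)
    (h2 : φ s(v.1, w.1) = c) : colM H φ U v c = w := by
  have h : c ∈ colS H φ U v := (mem_colS H φ U v c).2 ⟨w, h1, h2⟩
  obtain ⟨h3, h4⟩ := colM_spec h
  by_contra hne
  exact hφ v.1 (colM H φ U v c).1 w.1 h3 h1 (fun h5 => hne (Subtype.ext h5)) (h4.trans h2.symm)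

variable (H φ U) in
/-- the host graph on `U` -/
noncomputable def host (hφ : IsProper H φ) : Host U ℕ where
  S := colS H φ U
  mv := colM H φ U
  mem := by
    intro v c h
    obtain ⟨h1, h2⟩ := colM_spec h
    exact (mem_colS H φ U _ c).2 ⟨v, h1.symm, by rw [Sym2.eq_swap]; exact h2⟩
  inv := by
    intro v c h
    obtain ⟨h1, h2⟩ := colM_spec h
    exact colM_eq hφ h1.symm (by rw [Sym2.eq_swap]; exact h2)
  ne := by
    intro v c h h0
    obtain ⟨h1, h2⟩ := colM_spec h
    rw [h0] at h1
    exact h1.ne rfl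
  inj := by
    intro v c c' h h' h0
    obtain ⟨h1, h2⟩ := colM_spec h
    obtain ⟨h3, h4⟩ := colM_spec h'
    rw [← h2, ← h4, h0]

theorem card_colS (hφ : IsProper H φ) [DecidableRel H.Adj] (v : U) :
    (colS H φ U v).card = (U.filter (fun w => H.Adj v.1 w)).card := by
  classical
  unfold colS
  rw [Finset.card_image_of_injOn]
  · congr 1
    ext w
    simp
  · intro w hw w' hw' h
    simp only [Finset.coe_filter, Set.mem_setOf_eq] at hw hw'
    by_contra hne
    exact hφ v.1 w w' hw.2 hw'.2 hne h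

theorem adj_update (hH : H ≤ cube n) {x y : Fin n → Bool} (h : H.Adj x y) :
    ∃ i, y = Function.update x i (!x i) := by
  obtain ⟨i, h1, h2⟩ := hH h
  exact ⟨i, eq_update h1 h2⟩

theorem hamming_update (x u : Fin n → Bool) (i : Fin n) :
    (x i ≠ u i ∧ hammingDist (Function.update x i (!x i)) u + 1 = hammingDist x u) ∨
      (x i = u i ∧ hammingDist (Function.update x i (!x i)) u = hammingDist x u + 1) := by
  classical
  unfold hammingDist
  by_cases h : x i = u i
  · right
    refine ⟨h, ?_⟩
    have : univ.filter (fun j => Function.update x i (!x i) j ≠ u j) =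
        insert i (univ.filter (fun j => x j ≠ u j)) := by
      ext j
      simp only [mem_filter, mem_univ, true_and, mem_insert]
      by_cases hj : j = i
      · subst hj
        rw [Function.update_self, ← h]
        simp
      · rw [Function.update_of_ne hj]
        simp [hj]
    rw [this, Finset.card_insert_of_notMem (by simp [h])]
  · left
    refine ⟨h, ?_⟩
    have : univ.filter (fun j => x j ≠ u j) =
        insert i (univ.filter (fun j => Function.update x i (!x i) j ≠ u j)) := by
      ext j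
      simp only [mem_filter, mem_univ, true_and, mem_insert]
      by_cases hj : j = i
      · subst hj
        simp [h]
      · rw [Function.update_of_ne hj]
        simp [hj]
    rw [this, Finset.card_insert_of_notMem]
    simp only [mem_filter, mem_univ, true_and, Function.update_self]
    revert h
    cases x i <;> cases u i <;> simp

theorem host_cube (hH : H ≤ cube n) (hφ : IsProper H φ) :
    CubeLike (host H φ U hφ) (fun v w => hammingDist v.1 w.1) where
  zero := by
    intro w u
    rw [hammingDist_eq_zero]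
    exact ⟨fun h => Subtype.ext h, fun h => by rw [h]⟩
  step := by
    intro w u c hc
    obtain ⟨h1, h2⟩ := colM_spec (show c ∈ colS H φ U w from hc)
    obtain ⟨i, hi⟩ := adj_update hH h1
    show hammingDist (colM H φ U w c).1 u.1 + 1 = hammingDist w.1 u.1 ∨
      hammingDist (colM H φ U w c).1 u.1 = hammingDist w.1 u.1 + 1
    rw [hi]
    rcases hamming_update w.1 u.1 i with h | h
    · exact Or.inl h.2
    · exact Or.inr h.2
  down := by
    classical
    intro w u
    show (((colS H φ U w)).filter (fun c => hammingDist (colM H φ U w c).1 u.1 + 1 =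
      hammingDist w.1 u.1)).card ≤ hammingDist w.1 u.1
    have hex : ∀ c ∈ (colS H φ U w).filter (fun c => hammingDist (colM H φ U w c).1 u.1 + 1 =
        hammingDist w.1 u.1), ∃ i, w.1 i ≠ u.1 i ∧
          (colM H φ U w c).1 = Function.update w.1 i (!w.1 i) := by
      intro c hc
      rw [Finset.mem_filter] at hc
      obtain ⟨h1, h2⟩ := colM_spec hc.1
      obtain ⟨i, hi⟩ := adj_update hH h1
      refine ⟨i, ?_, hi⟩
      have h3 := hc.2
      rw [hi] at h3
      rcases hamming_update w.1 u.1 i with h | h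
      · exact h.1
      · omega
    rcases isEmpty_or_nonempty (Fin n) with h0 | h0
    · have h1 : ((colS H φ U w)).filter (fun c => hammingDist (colM H φ U w c).1 u.1 + 1 =
          hammingDist w.1 u.1) = ∅ := by
        apply Finset.eq_empty_of_forall_notMem
        intro c hc
        obtain ⟨i, _⟩ := hex c hc
        exact h0.elim i
      rw [h1]
      simp
    choose! d hd using hex
    unfold hammingDist
    apply Finset.card_le_card_of_injOn d
    · intro c hc
      have := (hd c hc).1
      simpa using this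
    · intro c hc c' hc' h
      have h1 := (hd c hc).2
      have h2 := (hd c' hc').2
      rw [← h, ← h1] at h2
      have h3 : c ∈ colS H φ U w := (Finset.mem_filter.1 hc).1
      have h4 : c' ∈ colS H φ U w := (Finset.mem_filter.1 hc').1
      exact (host H φ U hφ).inj w c c' h3 h4 (Subtype.ext h2.symm)

end Host

/-! ### caterpillars -/

/-- the spine vertex to which the vertex `i + 1` is attached -/
def sp (b : ℕ → Bool) : ℕ → ℕ
  | 0 => 0
  | (i + 1) => if b i then i + 1 else sp b i

theorem sp_le (b : ℕ → Bool) (i : ℕ) : sp b i ≤ i := by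
  induction i with
  | zero => exact le_rfl
  | succ i ih =>
    unfold sp
    split_ifs <;> omega

/-- The caterpillar with `k` edges and pattern `b`. It is built from the vertex `0` edge by edge:
the vertex `i + 1` is joined to the current vertex `sp b i`, and it becomes the current vertex
if and only if `b i` is true. -/
def Cat (b : ℕ → Bool) (k : ℕ) : SimpleGraph (Fin (k + 1)) where
  Adj u v := (∃ i, u.val = sp b i ∧ v.val = i + 1) ∨ (∃ i, v.val = sp b i ∧ u.val = i + 1)
  symm := ⟨fun _ _ h => h.symm⟩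
  loopless := ⟨fun u h => by
    rcases h with ⟨i, h1, h2⟩ | ⟨i, h1, h2⟩ <;>
    · have := sp_le b i
      omega⟩

theorem cat_path (k : ℕ) : Cat (fun _ => true) k = SimpleGraph.pathGraph (k + 1) := by
  have hsp : ∀ i, sp (fun _ => true) i = i := by
    intro i
    cases i <;> simp [sp]
  ext u v
  rw [SimpleGraph.pathGraph_adj]
  show ((∃ i, u.val = sp _ i ∧ v.val = i + 1) ∨ (∃ i, v.val = sp _ i ∧ u.val = i + 1)) ↔ _
  simp only [hsp]
  constructor
  · rintro (⟨i, h1, h2⟩ | ⟨i, h1, h2⟩)
    · left; omega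
    · right; omega
  · rintro (h | h)
    · exact Or.inl ⟨u.val, rfl, h.symm⟩
    · exact Or.inr ⟨v.val, rfl, h.symm⟩

/-- a copy in the host gives a rainbow copy -/
theorem copy_of {n : ℕ} {H : SimpleGraph (Fin n → Bool)} {φ : Sym2 (Fin n → Bool) → ℕ}
    {U : Finset (Fin n → Bool)} (hφ : IsProper H φ) (b : ℕ → Bool) (k : ℕ)
    (h : HasCopy (host H φ U hφ) b k) :
    ∃ f : Fin (k + 1) → (Fin n → Bool), IsRainbowCopy H φ (Cat b k) f := by
  obtain ⟨y, x, c, h1, h2, h3, h4⟩ := h
  let g : ℕ → (Fin n → Bool) := fun i => Nat.casesOn i (y 0).1 (fun i => (x i).1)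
  have hg : ∀ i ≤ k, (y i).1 = g (sp b i) := by
    intro i
    induction i with
    | zero => intro _; rfl
    | succ i ih =>
      intro hi
      rw [(h1 i (by omega)).2.2]
      unfold sp
      split_ifs with hb
      · rfl
      · exact ih (by omega)
  have hedge : ∀ i < k, H.Adj (g (sp b i)) (g (i + 1)) ∧ φ s(g (sp b i), g (i + 1)) = c i := by
    intro i hi
    obtain ⟨a1, a2, a3⟩ := h1 i hi
    obtain ⟨b1, b2⟩ := colM_spec (show c i ∈ colS H φ U (y i) from a1)
    have e : g (i + 1) = (colM H φ U (y i) (c i)).1 := congrArg Subtype.val a2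
    rw [← hg i hi.le, e]
    exact ⟨b1, b2⟩
  have hT : ∀ u v : Fin (k + 1), (Cat b k).Adj u v → ∃ i < k,
      s(u.val, v.val) = s(sp b i, i + 1) := by
    rintro u v (⟨i, e1, e2⟩ | ⟨i, e1, e2⟩)
    · exact ⟨i, by have := v.isLt; omega, by rw [e1, e2]⟩
    · exact ⟨i, by have := u.isLt; omega, by rw [e1, e2, Sym2.eq_swap]⟩
  have key : ∀ u v : Fin (k + 1), ∀ i, s(u.val, v.val) = s(sp b i, i + 1) →
      s(g u.val, g v.val) = s(g (sp b i), g (i + 1)) := by
    intro u v i h
    have := congrArg (Sym2.map g) h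
    simpa using this
  refine ⟨fun j => g j.val, ?_, ?_, ?_⟩
  · intro u v huv
    have huv' : g u.val = g v.val := huv
    apply Fin.ext
    rcases hu : u.val with _ | i
    · rcases hv : v.val with _ | j
      · rfl
      · exfalso
        rw [hu, hv] at huv'
        have := v.isLt
        exact h4 j (by omega) (Subtype.ext huv'.symm)
    · rcases hv : v.val with _ | j
      · exfalso
        rw [hu, hv] at huv'
        have := u.isLt
        exact h4 i (by omega) (Subtype.ext huv')
      · rw [hu, hv] at huv'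
        have e1 := u.isLt
        have e2 := v.isLt
        rw [h3 i (by omega) j (by omega) (Subtype.ext huv')]
  · intro u v huv
    obtain ⟨i, hi, h5⟩ := hT u v huv
    have h6 := key u v i h5
    have h7 := (hedge i hi).1
    rw [← SimpleGraph.mem_edgeSet] at h7 ⊢
    rw [h6]
    exact h7
  · intro u v u' v' huv huv' h
    obtain ⟨i, hi, h5⟩ := hT u v huv
    obtain ⟨j, hj, h5'⟩ := hT u' v' huv'
    have h6 := key u v i h5
    have h6' := key u' v' j h5'
    have h7 : φ s(g u.val, g v.val) = φ s(g u'.val, g v'.val) := h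
    rw [h6, h6', (hedge i hi).2, (hedge j hj).2] at h7
    have hij := h2 i hi j hj h7
    subst hij
    have h8 : s(u.val, v.val) = s(u'.val, v'.val) := h5.trans h5'.symm
    have h9 : Sym2.map Fin.val s(u, v) = Sym2.map Fin.val s(u', v') := by simpa using h8
    exact Sym2.map.injective Fin.val_injective h9

/-! ### a dense core -/

theorem erase_sum {V : Type} [DecidableEq V] (H : SimpleGraph V) [DecidableRel H.Adj]
    (U : Finset V) (u : V) (hu : u ∈ U) :
    ∑ w ∈ U, (U.filter (fun v => H.Adj w v)).card =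
      ∑ w ∈ U.erase u, ((U.erase u).filter (fun v => H.Adj w v)).card +
        2 * (U.filter (fun v => H.Adj u v)).card := by
  have e1 : ∑ w ∈ U, (U.filter (fun v => H.Adj w v)).card =
      (U.filter (fun v => H.Adj u v)).card +
      ∑ w ∈ U.erase u, (U.filter (fun v => H.Adj w v)).card :=
    (Finset.add_sum_erase U (fun w => (U.filter (fun v => H.Adj w v)).card) hu).symm
  have e2 : ∀ w ∈ U.erase u, (U.filter (fun v => H.Adj w v)).card =
      ((U.erase u).filter (fun v => H.Adj w v)).card + if H.Adj u w then 1 else 0 := by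
    intro w _
    by_cases hw : H.Adj u w
    · rw [if_pos hw]
      have : U.filter (fun v => H.Adj w v) =
          insert u ((U.erase u).filter (fun v => H.Adj w v)) := by
        ext t
        simp only [Finset.mem_filter, Finset.mem_insert, Finset.mem_erase]
        constructor
        · rintro ⟨a, b⟩
          by_cases ht : t = u
          · exact Or.inl ht
          · exact Or.inr ⟨⟨ht, a⟩, b⟩
        · rintro (a | ⟨⟨_, a⟩, b⟩)
          · rw [a]; exact ⟨hu, hw.symm⟩
          · exact ⟨a, b⟩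
      rw [this, Finset.card_insert_of_notMem (by simp)]
    · rw [if_neg hw, add_zero]
      congr 1
      ext t
      simp only [Finset.mem_filter, Finset.mem_erase]
      constructor
      · rintro ⟨a, b⟩
        refine ⟨⟨?_, a⟩, b⟩
        rintro rfl
        exact hw b.symm
      · rintro ⟨⟨_, a⟩, b⟩
        exact ⟨a, b⟩
  rw [e1, Finset.sum_congr rfl e2, Finset.sum_add_distrib]
  have e3 : ∑ w ∈ U.erase u, (if H.Adj u w then 1 else 0) =
      (U.filter (fun v => H.Adj u v)).card := by
    rw [← Finset.card_filter]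
    congr 1
    ext t
    simp only [Finset.mem_filter, Finset.mem_erase]
    constructor
    · rintro ⟨⟨_, a⟩, b⟩
      exact ⟨a, b⟩
    · rintro ⟨a, b⟩
      exact ⟨⟨b.ne', a⟩, b⟩
  rw [e3]
  ring

theorem dense_core' {V : Type} [Fintype V] [DecidableEq V] (H : SimpleGraph V)
    [DecidableRel H.Adj] (a t : ℕ) (h : a * Fintype.card V < t * (2 * H.edgeFinset.card)) :
    ∃ U : Finset V, a * U.card < t * ∑ u ∈ U, (U.filter (fun v => H.Adj u v)).card ∧
      ∀ u ∈ U, a < 2 * t * (U.filter (fun v => H.Adj u v)).card := by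
  classical
  let s : Finset V → ℕ := fun U => ∑ u ∈ U, (U.filter (fun v => H.Adj u v)).card
  have hfull : a * (univ : Finset V).card < t * s univ := by
    have h1 := H.sum_degrees_eq_twice_card_edges
    have h2 : s univ = ∑ v, H.degree v := by
      apply Finset.sum_congr rfl
      intro v _
      rw [← SimpleGraph.card_neighborFinset_eq_degree]
      congr 1
      ext w
      simp
    rw [h2, h1, Finset.card_univ]
    exact h
  obtain ⟨U, hU, hmin⟩ := Finset.exists_min_image
    ((univ : Finset (Finset V)).filter (fun U => a * U.card < t * s U)) (fun U => U.card)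
    ⟨univ, by rw [Finset.mem_filter]; exact ⟨Finset.mem_univ _, hfull⟩⟩
  rw [Finset.mem_filter] at hU
  have hU2 := hU.2
  refine ⟨U, hU2, ?_⟩
  intro u hu
  by_contra hcon
  push Not at hcon
  have hs : s U = s (U.erase u) + 2 * (U.filter (fun v => H.Adj u v)).card :=
    erase_sum H U u hu
  have hc : (U.erase u).card + 1 = U.card := Finset.card_erase_add_one hu
  have hbig : a * (U.erase u).card < t * s (U.erase u) := by
    rw [← hc, hs] at hU2
    nlinarith
  have := hmin (U.erase u) (by rw [Finset.mem_filter]; exact ⟨Finset.mem_univ _, hbig⟩)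
  omega

/-! ### the numbers -/

theorem pow_ge_cube {m : ℕ} (hm : 10 ≤ m) : m ^ 3 ≤ 2 ^ m := by
  induction m, hm using Nat.le_induction with
  | base => norm_num
  | succ m hm ih =>
    have h1 : (m + 1) ^ 3 ≤ 2 * m ^ 3 := by nlinarith [sq_nonneg (m : ℤ), mul_le_mul hm hm (by omega) (by omega)]
    calc (m + 1) ^ 3 ≤ 2 * m ^ 3 := h1
      _ ≤ 2 * 2 ^ m := by omega
      _ = 2 ^ (m + 1) := by ring


theorem arith {E N k t p q l m : ℝ} (hN : 0 < N) (ht : 600000 ≤ t) (hk : t ^ 4 ≤ k)
    (hp : 0 ≤ p) (hpk : p * t ^ 3 ≤ k) (hE : k * (t + 600000) * N < t * E) (hm : 1 ≤ m)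
    (hkm : k ≤ 16 * t * m) (hq : 0 < q) (hl : t * l ≤ 2 * q) (z : ℝ) (hz0 : 0 ≤ z)
    (hz : z ≤ 1 / m ^ 3)
    (h : E * (1 - l / q) ≤ N * (k + p) + (k + p) * (E * (z + 2 * (2 * p / m ^ 2 +
      15 * k / m ^ 3)))) : False := by
  have ht0 : 0 < t := by linarith
  have ht1 : 1 ≤ t := by linarith
  have hk0 : 0 < k := lt_of_lt_of_le (by positivity) hk
  have hm0 : 0 < m := by linarith
  have hE0 : 0 < E := by
    have h1 : 0 < k * (t + 600000) * N := by positivity
    have h2 : 0 < t * E := h1.trans hE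
    exact (pos_iff_pos_of_mul_pos h2).1 ht0
  have hpt : p * t ≤ k := by
    have h1 : t ≤ t ^ 3 := by
      have := pow_le_pow_right₀ ht1 (show 1 ≤ 3 by norm_num)
      simpa using this
    have h2 := mul_le_mul_of_nonneg_left h1 hp
    linarith
  have hpk' : p ≤ k := by nlinarith
  -- l / q ≤ 2 / t
  have hlq : l / q ≤ 2 / t := by
    rw [div_le_div_iff₀ hq ht0]
    linarith
  -- k ^ 2 t ≤ 4096 m ^ 3
  have h1 : k ^ 2 * t ≤ 4096 * m ^ 3 := by
    have a1 : k ^ 3 ≤ (16 * t * m) ^ 3 := pow_le_pow_left₀ hk0.le hkm 3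
    have a2 : k ^ 2 * t ^ 4 ≤ k ^ 2 * k := mul_le_mul_of_nonneg_left hk (by positivity)
    have a3 : t ^ 3 * (k ^ 2 * t) ≤ t ^ 3 * (4096 * m ^ 3) := by nlinarith
    exact le_of_mul_le_mul_left a3 (by positivity)
  have h2 : k * p * t ≤ 256 * m ^ 2 := by
    have a1 : k ^ 2 ≤ (16 * t * m) ^ 2 := pow_le_pow_left₀ hk0.le hkm 2
    have a2 : k * (p * t ^ 3) ≤ k * k := mul_le_mul_of_nonneg_left hpk hk0.le
    have a3 : t ^ 2 * (k * p * t) ≤ t ^ 2 * (256 * m ^ 2) := by nlinarith
    exact le_of_mul_le_mul_left a3 (by positivity)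
  have hk1 : 1 ≤ k := by
    have : 1 ≤ t ^ 4 := one_le_pow₀ ht1
    linarith
  have b1 : k * k / m ^ 3 ≤ 4096 / t := by
    rw [div_le_div_iff₀ (by positivity) ht0]
    nlinarith
  have b2 : k * p / m ^ 2 ≤ 256 / t := by
    rw [div_le_div_iff₀ (by positivity) ht0]
    nlinarith
  have b3 : k * (1 / m ^ 3) ≤ 4096 / t := by
    have : k * (1 / m ^ 3) ≤ k * k / m ^ 3 := by
      rw [mul_one_div]
      apply div_le_div_of_nonneg_right _ (by positivity)
      nlinarith
    linarith
  have b4 : (k + p) * (z + 2 * (2 * p / m ^ 2 + 15 * k / m ^ 3)) ≤ 256000 / t := by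
    have c1 : 0 ≤ z + 2 * (2 * p / m ^ 2 + 15 * k / m ^ 3) := by positivity
    have c2 : (k + p) * (z + 2 * (2 * p / m ^ 2 + 15 * k / m ^ 3)) ≤
        (2 * k) * (1 / m ^ 3 + 2 * (2 * p / m ^ 2 + 15 * k / m ^ 3)) := by
      apply mul_le_mul (by linarith) (by linarith) c1 (by positivity)
    have c3 : (2 * k) * (1 / m ^ 3 + 2 * (2 * p / m ^ 2 + 15 * k / m ^ 3)) =
        2 * (k * (1 / m ^ 3)) + 8 * (k * p / m ^ 2) + 60 * (k * k / m ^ 3) := by ring
    have c4 : 2 * (4096 / t) + 8 * (256 / t) + 60 * (4096 / t) = 256000 / t := by ring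
    linarith
  have b5 : E * (1 - 2 / t) ≤ N * (k + p) + E * (256000 / t) := by
    have c1 : E * (1 - 2 / t) ≤ E * (1 - l / q) :=
      mul_le_mul_of_nonneg_left (by linarith) hE0.le
    have c2 := mul_le_mul_of_nonneg_left b4 hE0.le
    have c3 : (k + p) * (E * (z + 2 * (2 * p / m ^ 2 + 15 * k / m ^ 3))) =
        E * ((k + p) * (z + 2 * (2 * p / m ^ 2 + 15 * k / m ^ 3))) := by ring
    linarith
  have b6 : E * (t - 256002) ≤ N * k * (t + 1) := by
    have c1 := mul_le_mul_of_nonneg_left b5 ht0.le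
    have c2 : t * (E * (1 - 2 / t)) = E * (t - 2) := by field_simp
    have c3 : t * (N * (k + p) + E * (256000 / t)) = N * (t * k + p * t) + E * 256000 := by
      field_simp
    rw [c2, c3] at c1
    have c4 : N * (t * k + p * t) ≤ N * (t * k + k) :=
      mul_le_mul_of_nonneg_left (by linarith) hN.le
    nlinarith
  have b7 : k * (t + 600000) * N * (t - 256002) < t * E * (t - 256002) :=
    mul_lt_mul_of_pos_right hE (by linarith)
  have b8 : t * (E * (t - 256002)) ≤ t * (N * k * (t + 1)) :=
    mul_le_mul_of_nonneg_left b6 ht0.le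
  have b9 : (N * k) * ((t + 600000) * (t - 256002)) < (N * k) * (t * (t + 1)) := by nlinarith
  have b10 : (t + 600000) * (t - 256002) < t * (t + 1) :=
    lt_of_mul_lt_mul_left b9 (by positivity)
  nlinarith

/-- the main bound -/
theorem upper {n : ℕ} (H : SimpleGraph (Fin n → Bool)) [DecidableRel H.Adj] (hH : H ≤ cube n)
    (φ : Sym2 (Fin n → Bool) → ℕ) (hφ : IsProper H φ) (b : ℕ → Bool) (k p t : ℕ)
    (ht : 600000 ≤ t) (hk : t ^ 4 ≤ k) (hp : 1 ≤ p) (hpk : p * t ^ 3 ≤ k)
    (hb : ∀ i, b (i + p) = b i) (hbt : ∃ i, b i = true)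
    (hno : ¬ ∃ f : Fin (k + 1) → (Fin n → Bool), IsRainbowCopy H φ (Cat b k) f) :
    t * (2 * H.edgeFinset.card) ≤ k * (t + 600000) * 2 ^ n := by
  classical
  by_contra hcon
  push Not at hcon
  have hV : Fintype.card (Fin n → Bool) = 2 ^ n := by simp
  rw [← hV] at hcon
  obtain ⟨U, hU1, hU2⟩ := dense_core' H (k * (t + 600000)) t (by
    convert hcon)
  have hUne : U.Nonempty := by
    rw [Finset.nonempty_iff_ne_empty]
    rintro rfl
    simp at hU1
  obtain ⟨u0, hu0⟩ := hUne
  have ht0 : 0 < t := by omega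
  set G := host H φ U hφ with hGdef
  have hS : ∀ v : U, (G.S v).card = (U.filter (fun w => H.Adj v.1 w)).card :=
    fun v => card_colS hφ v
  have hdeg : ∀ v : U, k < 2 * (G.S v).card := by
    intro v
    have h1 := hU2 v.1 v.2
    rw [← hS v] at h1
    have h2 : k * t ≤ k * (t + 600000) := Nat.mul_le_mul_left _ (by omega)
    have h3 : t * k < t * (2 * (G.S v).card) := by
      calc t * k = k * t := mul_comm _ _
        _ ≤ _ := h2
        _ < _ := h1
        _ = _ := by ring
    exact lt_of_mul_lt_mul_left h3 (Nat.zero_le _)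
  set D : Finset ℕ := (univ : Finset U).biUnion (fun v => G.S v) with hD
  have hSD : ∀ v, G.S v ⊆ D := fun v => Finset.subset_biUnion_of_mem (fun v => G.S v) (Finset.mem_univ v)
  have hq1 : k < 2 * D.card := by
    have h1 := hdeg ⟨u0, hu0⟩
    have h2 := Finset.card_le_card (hSD ⟨u0, hu0⟩)
    omega
  have htk : t ≤ t ^ 4 := by
    calc t = t ^ 1 := (pow_one t).symm
      _ ≤ t ^ 4 := Nat.pow_le_pow_right ht0 (by norm_num)
  have htk2 : 80 * t * 2 ≤ t ^ 4 := by
    have : t ^ 4 = t ^ 3 * t := by ring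
    have h3 : 160 ≤ t ^ 3 := by
      calc 160 ≤ t := by omega
        _ = t ^ 1 := (pow_one t).symm
        _ ≤ t ^ 3 := Nat.pow_le_pow_right ht0 (by norm_num)
    nlinarith
  have hqt : t ≤ D.card := by omega
  -- the parameters
  obtain ⟨l, hl1, hl2⟩ : ∃ l, D.card ≤ t * l ∧ t * l ≤ D.card + t := by
    refine ⟨(D.card + t - 1) / t, ?_, ?_⟩
    · have h1 := Nat.div_add_mod (D.card + t - 1) t
      have h2 := Nat.mod_lt (D.card + t - 1) ht0
      omega
    · have h1 := Nat.div_mul_le_self (D.card + t - 1) t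
      rw [mul_comm] at h1
      omega
  have hlq : l ≤ D.card := by
    have h1 : t * l ≤ 2 * D.card := by omega
    have h2 : 2 * l ≤ t * l := Nat.mul_le_mul_right _ (by omega)
    omega
  obtain ⟨m, hm1, hm2⟩ : ∃ m, 8 * t * m ≤ k ∧ k < 8 * t * (m + 1) := by
    refine ⟨k / (8 * t), Nat.mul_div_le _ _, ?_⟩
    exact Nat.lt_mul_div_succ k (by omega)
  have hm10 : 10 ≤ m := by
    by_contra hc
    push Not at hc
    have h1 : 8 * t * (m + 1) ≤ 8 * t * 10 := Nat.mul_le_mul_left _ (by omega)
    omega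
  have hcopy : ¬ HasCopy G b k := fun h => hno (copy_of hφ b k h)
  have hmain := count_main G b l m (host_cube hH hφ) (by omega) p hb hbt hp k t D.card hcopy D rfl
    hlq (by omega) hl1 (by omega) hSD (by
      intro v
      have := hdeg v
      have h3 : 2 * (4 * t * m) ≤ k := by
        calc 2 * (4 * t * m) = 8 * t * m := by ring
          _ ≤ k := hm1
      omega)
  have hsum : ∑ v : U, ((G.S v).card : ℝ) =
      ((∑ u ∈ U, (U.filter (fun v => H.Adj u v)).card : ℕ) : ℝ) := by
    push_cast
    rw [← Finset.sum_coe_sort U]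
    apply Finset.sum_congr rfl
    intro v _
    rw [hS v]
  rw [Fintype.card_coe] at hmain
  refine arith (E := ∑ v : U, ((G.S v).card : ℝ)) (N := (U.card : ℝ)) (k := (k : ℝ)) (t := (t : ℝ))
    (p := (p : ℝ)) (q := (D.card : ℝ)) (l := (l : ℝ)) (m := (m : ℝ)) ?_ ?_ ?_ ?_ ?_ ?_ ?_ ?_ ?_ ?_
    ((1 / 2 : ℝ) ^ m) (by positivity) ?_ ?_
  · exact_mod_cast Finset.card_pos.2 ⟨u0, hu0⟩
  · exact_mod_cast ht
  · exact_mod_cast hk
  · positivity
  · exact_mod_cast hpk
  · rw [hsum]
    exact_mod_cast hU1
  · have : 1 ≤ m := by omega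
    exact_mod_cast this
  · have h3 : k ≤ 16 * t * m := by
      have h4 : 8 * t * (m + 1) ≤ 16 * t * m := by
        have : 8 * t * 1 ≤ 8 * t * m := Nat.mul_le_mul_left _ (by omega)
        have e1 : 8 * t * (m + 1) = 8 * t * m + 8 * t * 1 := by ring
        have e2 : 16 * t * m = 8 * t * m + 8 * t * m := by ring
        omega
      omega
    exact_mod_cast h3
  · have : 0 < D.card := by omega
    exact_mod_cast this
  · have h3 : t * l ≤ 2 * D.card := by omega
    exact_mod_cast h3
  · have h3 := pow_ge_cube hm10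
    have h4 : ((m : ℝ)) ^ 3 ≤ 2 ^ m := by exact_mod_cast h3
    have h5 : (0 : ℝ) < m := by
      have : 0 < m := by omega
      exact_mod_cast this
    rw [one_div_pow]
    exact one_div_le_one_div_of_le (by positivity) h4
  · exact hmain

end Pool.Agent.K4H80.RP
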