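import Pool.Agent.K4H80.RP.Walk

set_option autoImplicit false

/-!
# The expected number of hits
-/

namespace Pool.Agent.K4H80.RP

open Finset

variable {V C : Type} [DecidableEq V] [DecidableEq C]

/-- the `r`-th arrival hits `u` and no arrival up to it is bad -/
def hitl (G : Host V C) (m : ℕ) (u : V) : ℕ → List (V × C × List C) → ℕ
  | 0, _ => 0
  | (_ + 1), [] => 0
  | 1, (s :: _) =>
    if Bad G m s.1 (s.2.1 :: s.2.2) then 0 else (if G.mv s.1 s.2.1 = u then 1 else 0)
  | (r + 2), (s :: l) =>
    if Bad G m s.1 (s.2.1 :: s.2.2) then 0 else hitl G m u (r + 1) l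

theorem hcl_eq (G : Host V C) (m : ℕ) (u : V) : ∀ (K : ℕ) (l : List (V × C × List C)),
    hcl G m u K l = ∑ r ∈ range K, hitl G m u (r + 1) l := by
  intro K
  induction K with
  | zero => intro l; simp [hcl]
  | succ K ih =>
    intro l
    cases l with
    | nil =>
      simp [hcl, hitl]
    | cons s l =>
      rw [Finset.sum_range_succ']
      by_cases h : Bad G m s.1 (s.2.1 :: s.2.2)
      · simp [hcl, hitl, h]
      · simp only [hcl, hitl, if_neg h, zero_add]
        rw [ih l, add_comm]

/-- the number of moves among the phases `φ, ..., φ + r - 1` -/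
def mu (b : ℕ → Bool) (φ r : ℕ) : ℕ := ((range r).filter (fun i => b (φ + i) = true)).card

theorem mu_succ (b : ℕ → Bool) (φ r : ℕ) :
    mu b φ (r + 1) = (if b φ = true then 1 else 0) + mu b (φ + 1) r := by
  unfold mu
  rw [Finset.card_filter, Finset.card_filter, Finset.sum_range_succ', add_comm]
  congr 1
  apply Finset.sum_congr rfl
  intro i _
  rw [show φ + (i + 1) = φ + 1 + i by ring]

theorem mu_add (b : ℕ → Bool) (φ r s : ℕ) : mu b φ (r + s) = mu b φ r + mu b (φ + r) s := by
  unfold mu
  rw [Finset.card_filter, Finset.card_filter, Finset.card_filter, Finset.sum_range_add]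
  congr 1
  apply Finset.sum_congr rfl
  intro i _
  rw [show φ + (r + i) = φ + r + i by ring]

/-- the bounds for the probabilities of hits -/
noncomputable def kap (m : ℕ) : ℕ → ℕ → ℝ
  | 0, _ => 0
  | 1, d => if d = 1 then 1 / m else 0
  | 2, d => if d = 0 then 1 / m else if d = 2 then 2 / m ^ 2 else 0
  | 3, d => if d = 1 then 3 / m ^ 2 else if d = 3 then 6 / m ^ 3 else 0
  | 4, d => if d = 0 then 3 / m ^ 2 else if d = 2 then 12 / m ^ 3 else
      if d = 4 then 24 / m ^ 4 else 0
  | (_ + 5), _ => 15 / m ^ 3

theorem kap_nonneg (m j d : ℕ) : 0 ≤ kap m j d := by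
  match j with
  | 0 => exact le_rfl
  | 1 => simp only [kap]; split_ifs <;> positivity
  | 2 => simp only [kap]; split_ifs <;> positivity
  | 3 => simp only [kap]; split_ifs <;> positivity
  | 4 => simp only [kap]; split_ifs <;> positivity
  | (_ + 5) => simp only [kap]; positivity

theorem kap_step {m : ℕ} (hm : 4 ≤ m) {j : ℕ} (h1 : 1 ≤ j) (h4 : j ≤ 4) (d : ℕ) :
    (d : ℝ) / m * kap m j (d - 1) + kap m j (d + 1) ≤ kap m (j + 1) d := by
  have hm0 : (0 : ℝ) < m := by positivity
  have hm4 : (4 : ℝ) ≤ m := by exact_mod_cast hm
  interval_cases j
  · -- j = 1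
    rcases d with _ | _ | _ | d
    · simp [kap]
    · simp [kap]
    · simp [kap]
      apply le_of_eq
      field_simp
    · simp [kap]
  · rcases d with _ | _ | _ | _ | d
    · simp [kap]
    · simp [kap]
      apply le_of_eq
      field_simp
      norm_num
    · simp [kap]
    · simp [kap]
      apply le_of_eq
      field_simp
      norm_num
    · simp [kap]
  · rcases d with _ | _ | _ | _ | _ | d
    · simp [kap]
    · simp [kap]
    · simp [kap]
      apply le_of_eq
      field_simp
      norm_num
    · simp [kap]
    · simp [kap]
      apply le_of_eq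
      field_simp
      norm_num
    · simp [kap]
  · rcases d with _ | _ | _ | _ | _ | _ | d
    · simp [kap]
      positivity
    · simp [kap]
      apply le_of_eq
      field_simp
      norm_num
    · simp [kap]
      positivity
    · simp [kap]
      have : (3 : ℝ) / m * (12 / m ^ 3) + 24 / m ^ 4 = (60 / m) / m ^ 3 := by
        field_simp
        norm_num
      rw [this]
      apply div_le_div_of_nonneg_right _ (by positivity)
      rw [div_le_iff₀ hm0]
      linarith
    · simp [kap]
      positivity
    · simp [kap]
      have : (5 : ℝ) / m * (24 / m ^ 4) = (120 / m ^ 2) / m ^ 3 := by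
        field_simp
        norm_num
      rw [this]
      apply div_le_div_of_nonneg_right _ (by positivity)
      rw [div_le_iff₀ (by positivity)]
      nlinarith
    · simp [kap]
      positivity

/-- a distance function on the vertices of a bipartite graph like the cube -/
structure CubeLike (G : Host V C) (dst : V → V → ℕ) : Prop where
  zero : ∀ w u, dst w u = 0 ↔ w = u
  step : ∀ w u c, c ∈ G.S w → dst (G.mv w c) u + 1 = dst w u ∨ dst (G.mv w c) u = dst w u + 1
  down : ∀ w u, ((G.S w).filter (fun c => dst (G.mv w c) u + 1 = dst w u)).card ≤ dst w u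

theorem avg_bound (n : ℕ) (D : Finset C) (hD : D.card = n + 1) (F : List C → ℝ) (X : ℝ)
    (h : ∀ c ∈ D, av n (D.erase c) (fun L => F (c :: L)) ≤ X) : av (n + 1) D F ≤ X := by
  have h1 := av_succ n D F
  have h2 : ∑ c ∈ D, av n (D.erase c) (fun L => F (c :: L)) ≤ ∑ _c ∈ D, X :=
    Finset.sum_le_sum h
  rw [Finset.sum_const, hD, nsmul_eq_mul] at h2
  push_cast at h2
  have hn : (0 : ℝ) < (n : ℝ) + 1 := by positivity
  have h3 : ((n : ℝ) + 1) * av (n + 1) D F ≤ ((n : ℝ) + 1) * X := by linarith
  exact le_of_mul_le_mul_left h3 hn

theorem avg_bound2 (G : Host V C) (w : V) (n : ℕ) (D : Finset C) (hD : D.card = n + 1)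
    (F : List C → ℝ) (X : ℝ)
    (h : ∀ c ∈ D, c ∉ G.S w → av n (D.erase c) (fun L => F (c :: L)) ≤ X)
    (h' : ∑ c ∈ D ∩ G.S w, av n (D.erase c) (fun L => F (c :: L)) ≤ (D ∩ G.S w).card * X) :
    av (n + 1) D F ≤ X := by
  have h1 := av_succ n D F
  have h2 : ∑ c ∈ D, av n (D.erase c) (fun L => F (c :: L)) ≤ ((n : ℝ) + 1) * X := by
    rw [← Finset.sum_inter_add_sum_sdiff D (G.S w)]
    have h3 : ∑ c ∈ D \ G.S w, av n (D.erase c) (fun L => F (c :: L)) ≤
        ∑ _c ∈ D \ G.S w, X := by
      apply Finset.sum_le_sum
      intro c hc
      rw [Finset.mem_sdiff] at hc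
      exact h c hc.1 hc.2
    rw [Finset.sum_const, nsmul_eq_mul] at h3
    have h4 : ((D ∩ G.S w).card : ℝ) + ((D \ G.S w).card : ℝ) = (n : ℝ) + 1 := by
      have := Finset.card_inter_add_card_sdiff D (G.S w)
      rw [hD] at this
      exact_mod_cast this
    rw [← h4, add_mul]
    linarith
  have hn : (0 : ℝ) < (n : ℝ) + 1 := by positivity
  have h3 : ((n : ℝ) + 1) * av (n + 1) D F ≤ ((n : ℝ) + 1) * X := by linarith
  exact le_of_mul_le_mul_left h3 hn

theorem bad_iff (G : Host V C) (m : ℕ) (v : V) {D : Finset C} {c : C} {L : List C} (hc : c ∈ D)
    (hL : Ord (D.erase c) L) : Bad G m v (c :: L) ↔ (D ∩ G.S v).card < m := by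
  unfold Bad
  rw [(hL.cons hc).2]

section
variable (G : Host V C) (b : ℕ → Bool) (l m : ℕ) {dst : V → V → ℕ} (hG : CubeLike G dst)
include hG

theorem hit_bound (hm : 4 ≤ m) (u : V) : ∀ (n : ℕ) (D : Finset C) (w : V) (φ r : ℕ),
    D.card = n →
    av n D (fun L => (hitl G m u (r + 1) (tr G b l w φ L) : ℝ)) ≤
      kap m (1 + mu b φ r) (dst w u) := by
  have hm0 : (0 : ℝ) < m := by
    have : 0 < m := by omega
    exact_mod_cast this
  intro n
  induction n with
  | zero =>
    intro D w φ r _
    have : av 0 D (fun L => (hitl G m u (r + 1) (tr G b l w φ L) : ℝ)) = 0 := by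
      simp [av, tr, hitl]
    rw [this]
    exact kap_nonneg _ _ _
  | succ n ih =>
    intro D w φ r hD
    by_cases hnl : n < l
    · -- stopped
      apply avg_bound n D hD
      intro c hc
      have hcard : (D.erase c).card = n := by rw [Finset.card_erase_of_mem hc, hD]; rfl
      rw [av_congr n (D.erase c) _ (fun _ => (0 : ℝ)) hcard, av_zero n _ hcard]
      · exact kap_nonneg _ _ _
      · intro L hL
        have : L.length < l := by rw [hL.length, hcard]; exact hnl
        simp [tr, this, hitl]
    · apply avg_bound2 G w n D hD
      · intro c hc hcS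
        have hcard : (D.erase c).card = n := by rw [Finset.card_erase_of_mem hc, hD]; rfl
        rw [av_congr n (D.erase c) _ (fun L => (hitl G m u (r + 1) (tr G b l w φ L) : ℝ)) hcard]
        · exact ih (D.erase c) w φ r hcard
        · intro L hL
          have : ¬ L.length < l := by rw [hL.length, hcard]; exact hnl
          simp only [tr, this, if_false, hcS]
      · set s := (D ∩ G.S w).card with hs
        by_cases hbad : s < m
        · have : ∑ c ∈ D ∩ G.S w, av n (D.erase c)
              (fun L => (hitl G m u (r + 1) (tr G b l w φ (c :: L)) : ℝ)) =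
              ∑ _c ∈ D ∩ G.S w, (0 : ℝ) := by
            apply Finset.sum_congr rfl
            intro c hc
            rw [Finset.mem_inter] at hc
            have hcard : (D.erase c).card = n := by rw [Finset.card_erase_of_mem hc.1, hD]; rfl
            rw [av_congr n (D.erase c) _ (fun _ => (0 : ℝ)) hcard, av_zero n _ hcard]
            intro L hL
            have h1 : ¬ L.length < l := by rw [hL.length, hcard]; exact hnl
            have h2 : Bad G m w (c :: L) := (bad_iff G m w hc.1 hL).2 hbad
            simp only [tr, h1, if_false, hc.2, if_true]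
            cases r with
            | zero => simp [hitl, h2]
            | succ r => simp [hitl, h2]
          rw [this, Finset.sum_const_zero]
          have := kap_nonneg m (1 + mu b φ r) (dst w u)
          positivity
        · push Not at hbad
          have hsm : (m : ℝ) ≤ s := by exact_mod_cast hbad
          -- the value of a term
          cases r with
          | zero =>
            have hmu : 1 + mu b φ 0 = 1 := by simp [mu]
            rw [hmu]
            have hterm : ∀ c ∈ D ∩ G.S w, av n (D.erase c)
                (fun L => (hitl G m u (0 + 1) (tr G b l w φ (c :: L)) : ℝ)) =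
                if G.mv w c = u then 1 else 0 := by
              intro c hc
              rw [Finset.mem_inter] at hc
              have hcard : (D.erase c).card = n := by
                rw [Finset.card_erase_of_mem hc.1, hD]; rfl
              rw [av_congr n (D.erase c) _ (fun _ => if G.mv w c = u then (1 : ℝ) else 0) hcard,
                av_const n _ _ hcard]
              intro L hL
              have h1 : ¬ L.length < l := by rw [hL.length, hcard]; exact hnl
              have h2 : ¬ Bad G m w (c :: L) := by
                rw [bad_iff G m w hc.1 hL]; omega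
              simp only [tr, h1, if_false, hc.2, if_true, hitl, if_neg h2, zero_add]
              split_ifs <;> simp
            rw [Finset.sum_congr rfl hterm]
            by_cases hd : dst w u = 1
            · have h1 : ∑ c ∈ D ∩ G.S w, (if G.mv w c = u then (1 : ℝ) else 0) ≤ 1 := by
                rw [← Finset.sum_filter, Finset.sum_const, nsmul_eq_mul, mul_one]
                have h2 : ((D ∩ G.S w).filter (fun c => G.mv w c = u)).card ≤ 1 := by
                  calc ((D ∩ G.S w).filter (fun c => G.mv w c = u)).card ≤
                      ((G.S w).filter (fun c => dst (G.mv w c) u + 1 = dst w u)).card := by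
                        apply Finset.card_le_card
                        intro c hc
                        rw [Finset.mem_filter, Finset.mem_inter] at hc
                        rw [Finset.mem_filter]
                        refine ⟨hc.1.2, ?_⟩
                        rw [(hG.zero _ _).2 hc.2, hd]
                    _ ≤ dst w u := hG.down w u
                    _ = 1 := hd
                exact_mod_cast h2
              rw [hd]
              simp only [kap, if_true]
              have h3 : (1 : ℝ) ≤ s * (1 / m) := by
                rw [mul_one_div, one_le_div hm0]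
                exact hsm
              linarith
            · have h1 : ∑ c ∈ D ∩ G.S w, (if G.mv w c = u then (1 : ℝ) else 0) = 0 := by
                apply Finset.sum_eq_zero
                intro c hc
                rw [Finset.mem_inter] at hc
                rw [if_neg]
                intro h
                have h0 := (hG.zero _ _).2 h
                rcases hG.step w u c hc.2 with h5 | h5 <;> omega
              rw [h1]
              have := kap_nonneg m 1 (dst w u)
              positivity
          | succ r =>
            have hterm : ∀ c ∈ D ∩ G.S w, av n (D.erase c)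
                (fun L => (hitl G m u (r + 1 + 1) (tr G b l w φ (c :: L)) : ℝ)) ≤
                kap m (1 + mu b (φ + 1) r) (dst (nx G b w φ c) u) := by
              intro c hc
              rw [Finset.mem_inter] at hc
              have hcard : (D.erase c).card = n := by
                rw [Finset.card_erase_of_mem hc.1, hD]; rfl
              rw [av_congr n (D.erase c) _
                (fun L => (hitl G m u (r + 1) (tr G b l (nx G b w φ c) (φ + 1) L) : ℝ)) hcard]
              · exact ih (D.erase c) (nx G b w φ c) (φ + 1) r hcard
              · intro L hL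
                have h1 : ¬ L.length < l := by rw [hL.length, hcard]; exact hnl
                have h2 : ¬ Bad G m w (c :: L) := by
                  rw [bad_iff G m w hc.1 hL]; omega
                simp only [tr, h1, if_false, hc.2, if_true, hitl, if_neg h2]
            refine (Finset.sum_le_sum hterm).trans ?_
            rw [mu_succ]
            by_cases hb : b φ = true
            · have hnx : ∀ c, nx G b w φ c = G.mv w c := fun c => by simp [nx, hb]
              simp only [hnx, hb, if_true]
              obtain ⟨j, hj⟩ : ∃ j, 1 + mu b (φ + 1) r = j := ⟨_, rfl⟩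
              have hj1 : 1 ≤ j := by omega
              rw [show 1 + (1 + mu b (φ + 1) r) = j + 1 by omega, hj]
              by_cases hj4 : j ≤ 4
              · -- split in down and up
                have h5 : ∑ c ∈ D ∩ G.S w, kap m j (dst (G.mv w c) u) ≤
                    ∑ c ∈ D ∩ G.S w, ((if dst (G.mv w c) u + 1 = dst w u then
                      kap m j (dst w u - 1) else 0) + kap m j (dst w u + 1)) := by
                  apply Finset.sum_le_sum
                  intro c hc
                  rw [Finset.mem_inter] at hc
                  rcases hG.step w u c hc.2 with h6 | h6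
                  · rw [if_pos h6, show dst w u - 1 = dst (G.mv w c) u by omega]
                    have := kap_nonneg m j (dst w u + 1)
                    linarith
                  · rw [h6, if_neg (by omega)]
                    linarith
                refine h5.trans ?_
                rw [Finset.sum_add_distrib, ← Finset.sum_filter, Finset.sum_const,
                  Finset.sum_const, nsmul_eq_mul, nsmul_eq_mul]
                have h7 : (((D ∩ G.S w).filter
                    (fun c => dst (G.mv w c) u + 1 = dst w u)).card : ℝ) ≤ dst w u := by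
                  have : ((D ∩ G.S w).filter (fun c => dst (G.mv w c) u + 1 = dst w u)).card ≤
                      dst w u := by
                    refine le_trans (Finset.card_le_card ?_) (hG.down w u)
                    intro c hc
                    rw [Finset.mem_filter, Finset.mem_inter] at hc
                    rw [Finset.mem_filter]
                    exact ⟨hc.1.2, hc.2⟩
                  exact_mod_cast this
                have h8 := kap_step hm hj1 hj4 (dst w u)
                have h9 := kap_nonneg m j (dst w u - 1)
                have h10 := kap_nonneg m j (dst w u + 1)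
                have h11 : (0 : ℝ) ≤ s := by positivity
                have h12 : (1 : ℝ) ≤ s / m := by rw [one_le_div hm0]; exact hsm
                calc _ ≤ (dst w u : ℝ) * kap m j (dst w u - 1) + s * kap m j (dst w u + 1) := by
                      apply add_le_add_left
                      exact mul_le_mul_of_nonneg_right h7 h9
                  _ ≤ (s / m) * ((dst w u : ℝ) * kap m j (dst w u - 1)) +
                      s * kap m j (dst w u + 1) := by
                      apply add_le_add_left
                      have : (0 : ℝ) ≤ (dst w u : ℝ) * kap m j (dst w u - 1) := by positivity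
                      nlinarith
                  _ = s * ((dst w u : ℝ) / m * kap m j (dst w u - 1) +
                      kap m j (dst w u + 1)) := by ring
                  _ ≤ s * kap m (j + 1) (dst w u) := mul_le_mul_of_nonneg_left h8 h11
              · obtain ⟨i, rfl⟩ : ∃ i, j = i + 5 := ⟨j - 5, by omega⟩
                have h6 : ∀ d, kap m (i + 5) d = 15 / m ^ 3 := fun d => rfl
                have h7 : ∀ d, kap m (i + 5 + 1) d = 15 / m ^ 3 := fun d => rfl
                simp only [h6, h7]
                rw [Finset.sum_const, nsmul_eq_mul]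
            · have hnx : ∀ c, nx G b w φ c = w := fun c => by simp [nx, hb]
              simp only [hnx, hb, Bool.false_eq_true, if_false, zero_add]
              rw [Finset.sum_const, nsmul_eq_mul]

/-- the bound for the expected number of hits -/
noncomputable def BB (m p K : ℕ) : ℝ := 2 * p / m ^ 2 + 15 * K / m ^ 3

omit [DecidableEq V] [DecidableEq C] hG in
theorem BB_nonneg (m p K : ℕ) : 0 ≤ BB m p K := by
  unfold BB; positivity

omit [DecidableEq V] [DecidableEq C] hG in
theorem BB_mono (m p K : ℕ) : BB m p K ≤ BB m p (K + 1) := by
  unfold BB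
  have : (15 : ℝ) * K / m ^ 3 ≤ 15 * ((K + 1 : ℕ) : ℝ) / m ^ 3 := by
    apply div_le_div_of_nonneg_right _ (by positivity)
    push_cast
    linarith
  linarith

omit [DecidableEq V] [DecidableEq C] hG in
theorem card_mu (p : ℕ) (hb : ∀ i, b (i + p) = b i) (hbt : ∃ i, b i = true) (hp : 1 ≤ p)
    (φ K : ℕ) : ((range K).filter (fun r => mu b φ r = 1)).card ≤ p := by
  have hpos : ∀ ψ, 1 ≤ mu b ψ p := by
    intro ψ
    unfold mu
    rw [Nat.one_le_iff_ne_zero, Finset.card_ne_zero]
    obtain ⟨i, hi⟩ := hbt
    -- choose the representative
    refine ⟨(i + p * ψ - ψ) % p, ?_⟩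
    rw [Finset.mem_filter, Finset.mem_range]
    refine ⟨Nat.mod_lt _ (by omega), ?_⟩
    have hper : ∀ q i, b (p * q + i) = b i := fun q i => per_add b hb q i
    have h1 : ψ ≤ i + p * ψ := by nlinarith
    have h2 := Nat.div_add_mod (i + p * ψ - ψ) p
    have h3 : b (ψ + (i + p * ψ - ψ) % p) =
        b (p * ((i + p * ψ - ψ) / p) + (ψ + (i + p * ψ - ψ) % p)) := (hper _ _).symm
    rw [h3, show p * ((i + p * ψ - ψ) / p) + (ψ + (i + p * ψ - ψ) % p) = p * ψ + i by omega,
      hper, hi]
  have hadd : ∀ r, mu b φ r + 1 ≤ mu b φ (r + p) := by
    intro r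
    rw [mu_add]
    have := hpos (φ + r)
    omega
  have hmono : ∀ r s, r ≤ s → mu b φ r ≤ mu b φ s := by
    intro r s h
    obtain ⟨d, rfl⟩ := Nat.exists_eq_add_of_le h
    rw [mu_add]
    omega
  rcases Finset.eq_empty_or_nonempty ((range K).filter (fun r => mu b φ r = 1)) with h0 | h0
  · rw [h0]; simp
  · set r0 := ((range K).filter (fun r => mu b φ r = 1)).min' h0 with hr0
    have hmem := Finset.min'_mem _ h0
    rw [← hr0, Finset.mem_filter] at hmem
    have hsub : (range K).filter (fun r => mu b φ r = 1) ⊆ Finset.Ico r0 (r0 + p) := by
      intro r hr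
      have h1 := Finset.min'_le _ r hr
      rw [← hr0] at h1
      rw [Finset.mem_Ico]
      refine ⟨h1, ?_⟩
      by_contra hcon
      push Not at hcon
      rw [Finset.mem_filter] at hr
      have h2 := hadd r0
      have h3 := hmono (r0 + p) r hcon
      omega
    refine (Finset.card_le_card hsub).trans ?_
    simp

theorem claim1 (hm : 4 ≤ m) (p : ℕ) (hb : ∀ i, b (i + p) = b i) (hbt : ∃ i, b i = true)
    (hp : 1 ≤ p) (u : V) (n : ℕ) (D : Finset C) (w : V) (φ K : ℕ) (hD : D.card = n)
    (hd : dst w u = 2) :
    av n D (fun L => (hcl G m u K (tr G b l w φ L) : ℝ)) ≤ BB m p K := by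
  have hm0 : (0 : ℝ) < m := by
    have : 0 < m := by omega
    exact_mod_cast this
  have h1 : (fun L => (hcl G m u K (tr G b l w φ L) : ℝ)) =
      fun L => ∑ r ∈ range K, (hitl G m u (r + 1) (tr G b l w φ L) : ℝ) := by
    funext L
    rw [hcl_eq]
    push_cast
    rfl
  rw [h1, av_sum _ n D hD]
  have h2 : ∀ r ∈ range K, av n D (fun L => (hitl G m u (r + 1) (tr G b l w φ L) : ℝ)) ≤
      (if mu b φ r = 1 then 2 / (m : ℝ) ^ 2 else 0) + 15 / (m : ℝ) ^ 3 := by
    intro r _
    refine (hit_bound G b l m hG hm u n D w φ r hD).trans ?_
    rw [hd]
    have h15 : (0 : ℝ) ≤ 15 / (m : ℝ) ^ 3 := by positivity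
    rcases hmu : mu b φ r with _ | _ | _ | _ | j
    · simp only [kap]
      norm_num
      try positivity
    · simp only [kap]
      norm_num
      try positivity
    · simp only [kap]
      norm_num
      try positivity
    · simp only [kap]
      norm_num
      apply div_le_div_of_nonneg_right _ (by positivity)
      norm_num
    · have : kap m (1 + (j + 1 + 1 + 1 + 1)) 2 = 15 / (m : ℝ) ^ 3 := by
        rw [show 1 + (j + 1 + 1 + 1 + 1) = j + 5 by ring]
        rfl
      rw [this]
      split_ifs <;> linarith
  refine (Finset.sum_le_sum h2).trans ?_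
  rw [Finset.sum_add_distrib, ← Finset.sum_filter, Finset.sum_const, Finset.sum_const,
    nsmul_eq_mul, nsmul_eq_mul, Finset.card_range]
  unfold BB
  have h3 : (((range K).filter (fun r => mu b φ r = 1)).card : ℝ) ≤ p := by
    exact_mod_cast card_mu b p hb hbt hp φ K
  have h4 : (0 : ℝ) ≤ 2 / (m : ℝ) ^ 2 := by positivity
  have h5 := mul_le_mul_of_nonneg_right h3 h4
  have h6 : (p : ℝ) * (2 / (m : ℝ) ^ 2) = 2 * p / m ^ 2 := by ring
  have h7 : (K : ℝ) * (15 / (m : ℝ) ^ 3) = 15 * K / m ^ 3 := by ring
  linarith

theorem claim2 (hm : 4 ≤ m) (p : ℕ) (hb : ∀ i, b (i + p) = b i) (hbt : ∃ i, b i = true)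
    (hp : 1 ≤ p) : ∀ (n : ℕ) (D : Finset C) (w : V) (φ K : ℕ) (c : C), D.card = n →
    c ∈ G.S w → c ∉ D →
    av n D (fun L => (hcl G m (G.mv w c) K (tr G b l w φ L) : ℝ)) ≤ BB m p K := by
  intro n
  induction n with
  | zero =>
    intro D w φ K c _ _ _
    have : av 0 D (fun L => (hcl G m (G.mv w c) K (tr G b l w φ L) : ℝ)) = 0 := by
      cases K <;> simp [av, tr, hcl]
    rw [this]
    exact BB_nonneg _ _ _
  | succ n ih =>
    intro D w φ K c hD hc hcD
    cases K with
    | zero =>
      have : (fun L => (hcl G m (G.mv w c) 0 (tr G b l w φ L) : ℝ)) = fun _ => 0 := by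
        funext L; simp [hcl]
      rw [this, av_zero _ _ hD]
      exact BB_nonneg _ _ _
    | succ K =>
      apply avg_bound n D hD
      intro c' hc'
      have hcard : (D.erase c').card = n := by rw [Finset.card_erase_of_mem hc', hD]; rfl
      have hcD' : c ∉ D.erase c' := fun h => hcD (Finset.mem_of_mem_erase h)
      by_cases hnl : n < l
      · rw [av_congr n (D.erase c') _ (fun _ => (0 : ℝ)) hcard, av_zero n _ hcard]
        · exact BB_nonneg _ _ _
        · intro L hL
          have : L.length < l := by rw [hL.length, hcard]; exact hnl
          simp [tr, this, hcl]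
      · by_cases hS : c' ∈ G.S w
        · by_cases hbad : (D ∩ G.S w).card < m
          · rw [av_congr n (D.erase c') _ (fun _ => (0 : ℝ)) hcard, av_zero n _ hcard]
            · exact BB_nonneg _ _ _
            · intro L hL
              have h1 : ¬ L.length < l := by rw [hL.length, hcard]; exact hnl
              have h2 : Bad G m w (c' :: L) := (bad_iff G m w hc' hL).2 hbad
              simp only [tr, h1, if_false, hS, if_true, hcl, if_pos h2, Nat.cast_zero]
          · have hne : G.mv w c' ≠ G.mv w c := by
              intro h
              have := G.inj w c' c hS hc h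
              rw [this] at hc'
              exact hcD hc'
            rw [av_congr n (D.erase c') _
              (fun L => (hcl G m (G.mv w c) K (tr G b l (nx G b w φ c') (φ + 1) L) : ℝ)) hcard]
            · by_cases hbφ : b φ = true
              · have hnx : nx G b w φ c' = G.mv w c' := by simp [nx, hbφ]
                rw [hnx]
                refine (claim1 G b l m hG hm p hb hbt hp (G.mv w c) n (D.erase c') (G.mv w c')
                  (φ + 1) K hcard ?_).trans (BB_mono m p K)
                have h0 : dst (G.mv w c) (G.mv w c) = 0 := (hG.zero _ _).2 rfl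
                have h1 : dst w (G.mv w c) = 1 := by
                  rcases hG.step w (G.mv w c) c hc with h | h <;> omega
                rcases hG.step w (G.mv w c) c' hS with h | h
                · exfalso
                  apply hne
                  rw [← hG.zero]
                  omega
                · omega
              · have hnx : nx G b w φ c' = w := by simp [nx, hbφ]
                rw [hnx]
                exact (ih (D.erase c') w (φ + 1) K c hcard hc hcD').trans (BB_mono m p K)
            · intro L hL
              have h1 : ¬ L.length < l := by rw [hL.length, hcard]; exact hnl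
              have h2 : ¬ Bad G m w (c' :: L) := by
                rw [bad_iff G m w hc' hL]; exact hbad
              simp only [tr, h1, if_false, hS, if_true, hcl, if_neg h2, if_neg hne, zero_add]
        · rw [av_congr n (D.erase c') _
            (fun L => (hcl G m (G.mv w c) (K + 1) (tr G b l w φ L) : ℝ)) hcard]
          · exact ih (D.erase c') w φ (K + 1) c hcard hc hcD'
          · intro L hL
            have : ¬ L.length < l := by rw [hL.length, hcard]; exact hnl
            simp only [tr, this, if_false, hS]

theorem claim3 (hm : 4 ≤ m) (p : ℕ) (hb : ∀ i, b (i + p) = b i) (hbt : ∃ i, b i = true)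
    (hp : 1 ≤ p) : ∀ (n : ℕ) (D : Finset C) (u : V) (φ K : ℕ), D.card = n →
    av n D (fun L => (hcl G m u K (tr G b l u φ L) : ℝ)) ≤ BB m p K := by
  intro n
  induction n with
  | zero =>
    intro D u φ K _
    have : av 0 D (fun L => (hcl G m u K (tr G b l u φ L) : ℝ)) = 0 := by
      cases K <;> simp [av, tr, hcl]
    rw [this]
    exact BB_nonneg _ _ _
  | succ n ih =>
    intro D u φ K hD
    cases K with
    | zero =>
      have : (fun L => (hcl G m u 0 (tr G b l u φ L) : ℝ)) = fun _ => 0 := by
        funext L; simp [hcl]
      rw [this, av_zero _ _ hD]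
      exact BB_nonneg _ _ _
    | succ K =>
      apply avg_bound n D hD
      intro c' hc'
      have hcard : (D.erase c').card = n := by rw [Finset.card_erase_of_mem hc', hD]; rfl
      by_cases hnl : n < l
      · rw [av_congr n (D.erase c') _ (fun _ => (0 : ℝ)) hcard, av_zero n _ hcard]
        · exact BB_nonneg _ _ _
        · intro L hL
          have : L.length < l := by rw [hL.length, hcard]; exact hnl
          simp [tr, this, hcl]
      · by_cases hS : c' ∈ G.S u
        · by_cases hbad : (D ∩ G.S u).card < m
          · rw [av_congr n (D.erase c') _ (fun _ => (0 : ℝ)) hcard, av_zero n _ hcard]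
            · exact BB_nonneg _ _ _
            · intro L hL
              have h1 : ¬ L.length < l := by rw [hL.length, hcard]; exact hnl
              have h2 : Bad G m u (c' :: L) := (bad_iff G m u hc' hL).2 hbad
              simp only [tr, h1, if_false, hS, if_true, hcl, if_pos h2, Nat.cast_zero]
          · have hne : G.mv u c' ≠ u := G.ne u c' hS
            rw [av_congr n (D.erase c') _
              (fun L => (hcl G m u K (tr G b l (nx G b u φ c') (φ + 1) L) : ℝ)) hcard]
            · by_cases hbφ : b φ = true
              · have hnx : nx G b u φ c' = G.mv u c' := by simp [nx, hbφ]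
                rw [hnx]
                have h5 := claim2 G b l m hG hm p hb hbt hp n (D.erase c') (G.mv u c') (φ + 1) K
                  c' hcard (G.mem u c' hS) (Finset.notMem_erase c' D)
                rw [G.inv u c' hS] at h5
                exact h5.trans (BB_mono m p K)
              · have hnx : nx G b u φ c' = u := by simp [nx, hbφ]
                rw [hnx]
                exact (ih (D.erase c') u (φ + 1) K hcard).trans (BB_mono m p K)
            · intro L hL
              have h1 : ¬ L.length < l := by rw [hL.length, hcard]; exact hnl
              have h2 : ¬ Bad G m u (c' :: L) := by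
                rw [bad_iff G m u hc' hL]; exact hbad
              simp only [tr, h1, if_false, hS, if_true, hcl, if_neg h2, if_neg hne, zero_add]
        · rw [av_congr n (D.erase c') _
            (fun L => (hcl G m u (K + 1) (tr G b l u φ L) : ℝ)) hcard]
          · exact ih (D.erase c') u φ (K + 1) hcard
          · intro L hL
            have : ¬ L.length < l := by rw [hL.length, hcard]; exact hnl
            simp only [tr, this, if_false, hS]

/-- the expected number of events charged to an arrival -/
theorem ee_bound (hm : 4 ≤ m) (p : ℕ) (hb : ∀ i, b (i + p) = b i) (hbt : ∃ i, b i = true)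
    (hp : 1 ≤ p) (n : ℕ) (D : Finset C) (hD : D.card = n + 1) (v : V) (φ K : ℕ) (c : C)
    (hc : c ∈ D) (hS : c ∈ G.S v) :
    av n (D.erase c) (fun L => (ee G b l m K v φ c L : ℝ)) ≤
      (if (D ∩ G.S v).card < m then 1 else 0) + 2 * BB m p K := by
  have hcard : (D.erase c).card = n := by rw [Finset.card_erase_of_mem hc, hD]; rfl
  have h1 : av n (D.erase c) (fun L => (ee G b l m K v φ c L : ℝ)) =
      av n (D.erase c) (fun L => (if (D ∩ G.S v).card < m then (1 : ℝ) else 0) +
        ((hcl G m v K (tr G b l (nx G b v φ c) (φ + 1) L) : ℝ) +
        (hcl G m (G.mv v c) K (tr G b l (nx G b v φ c) (φ + 1) L) : ℝ))) := by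
    apply av_congr _ _ _ _ hcard
    intro L hL
    unfold ee
    rw [if_congr (bad_iff G m v hc hL) rfl rfl]
    push_cast
    ring
  rw [h1, av_add, av_const _ _ _ hcard, av_add]
  have h2 : av n (D.erase c)
      (fun L => (hcl G m v K (tr G b l (nx G b v φ c) (φ + 1) L) : ℝ)) ≤ BB m p K := by
    by_cases hbφ : b φ = true
    · have hnx : nx G b v φ c = G.mv v c := by simp [nx, hbφ]
      rw [hnx]
      have h5 := claim2 G b l m hG hm p hb hbt hp n (D.erase c) (G.mv v c) (φ + 1) K
        c hcard (G.mem v c hS) (Finset.notMem_erase c D)
      rw [G.inv v c hS] at h5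
      exact h5
    · have hnx : nx G b v φ c = v := by simp [nx, hbφ]
      rw [hnx]
      exact claim3 G b l m hG hm p hb hbt hp n (D.erase c) v (φ + 1) K hcard
  have h3 : av n (D.erase c)
      (fun L => (hcl G m (G.mv v c) K (tr G b l (nx G b v φ c) (φ + 1) L) : ℝ)) ≤ BB m p K := by
    by_cases hbφ : b φ = true
    · have hnx : nx G b v φ c = G.mv v c := by simp [nx, hbφ]
      rw [hnx]
      exact claim3 G b l m hG hm p hb hbt hp n (D.erase c) (G.mv v c) (φ + 1) K hcard
    · have hnx : nx G b v φ c = v := by simp [nx, hbφ]
      rw [hnx]
      exact claim2 G b l m hG hm p hb hbt hp n (D.erase c) v (φ + 1) K c hcard hS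
        (Finset.notMem_erase c D)
  linarith

end

end Pool.Agent.K4H80.RP
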