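import Pool.Agent.K4H80.RP.Final

set_option autoImplicit false

/-!
# Stars, caterpillars are trees, and the extremal numbers
-/

namespace Pool.Agent.K4H80.RP

open Finset V11174.RES

theorem star_greatest (n k : ℕ) (hk : 1 ≤ k) :
    IsGreatest (sizes (cube n) (SimpleGraph.starGraph (0 : Fin (k + 1))))
      (min (k - 1) n * 2 ^ (n - 1)) := by
  classical
  apply greatest_of (SimpleGraph.starGraph (0 : Fin (k + 1))) (SimpleGraph.isTree_starGraph _) n k hk
    (by simp)
  intro H hH φ hφ h
  have hedge : H.edgeSet.ncard = H.edgeFinset.card := by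
    rw [← SimpleGraph.coe_edgeFinset, Set.ncard_coe_finset]
  have hV : Fintype.card (Fin n → Bool) = 2 ^ n := by simp
  obtain ⟨v, hv⟩ : ∃ v, k ≤ (H.neighborFinset v).card := by
    by_contra hcon
    push Not at hcon
    have h1 := H.sum_degrees_eq_twice_card_edges
    have h2 : ∑ v, H.degree v ≤ ∑ _v : Fin n → Bool, (k - 1) := by
      apply Finset.sum_le_sum
      intro v _
      rw [← SimpleGraph.card_neighborFinset_eq_degree]
      have := hcon v
      omega
    rw [Finset.sum_const, smul_eq_mul, Finset.card_univ, hV, mul_comm] at h2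
    rw [hedge, ← h1] at h
    omega
  obtain ⟨N, hN, hNk⟩ := Finset.exists_subset_card_eq hv
  let e : Fin k ≃ N := (N.equivFinOfCardEq hNk).symm
  refine ⟨fun i => Fin.cases v (fun j => (e j).1) i, ?_, ?_, ?_⟩
  · intro i j hij
    induction i using Fin.cases with
    | zero =>
      induction j using Fin.cases with
      | zero => rfl
      | succ j =>
        exfalso
        simp only [Fin.cases_zero, Fin.cases_succ] at hij
        have h1 := hN (e j).2
        rw [SimpleGraph.mem_neighborFinset] at h1
        exact h1.ne hij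
    | succ i =>
      induction j using Fin.cases with
      | zero =>
        exfalso
        simp only [Fin.cases_zero, Fin.cases_succ] at hij
        have h1 := hN (e i).2
        rw [SimpleGraph.mem_neighborFinset] at h1
        exact h1.ne hij.symm
      | succ j =>
        simp only [Fin.cases_succ] at hij
        rw [e.injective (Subtype.ext hij)]
  · intro i j hij
    rw [SimpleGraph.starGraph_adj] at hij
    obtain ⟨h1, h2⟩ := hij
    induction i using Fin.cases with
    | zero =>
      induction j using Fin.cases with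
      | zero => exact absurd rfl h1
      | succ j =>
        simp only [Fin.cases_zero, Fin.cases_succ]
        have h3 := hN (e j).2
        rwa [SimpleGraph.mem_neighborFinset] at h3
    | succ i =>
      induction j using Fin.cases with
      | zero =>
        simp only [Fin.cases_zero, Fin.cases_succ]
        have h3 := hN (e i).2
        rw [SimpleGraph.mem_neighborFinset] at h3
        exact h3.symm
      | succ j =>
        exfalso
        rcases h2 with h2 | h2 <;> exact absurd h2 (Fin.succ_ne_zero _)
  · have key : ∀ i j : Fin (k + 1), (SimpleGraph.starGraph (0 : Fin (k + 1))).Adj i j →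
        ∃ a : Fin k, s(i, j) = s(0, a.succ) ∧
          s((Fin.cases v (fun j => (e j).1) i : Fin n → Bool),
            (Fin.cases v (fun j => (e j).1) j : Fin n → Bool)) = s(v, (e a).1) := by
      intro i j hij
      rw [SimpleGraph.starGraph_adj] at hij
      obtain ⟨h1, h2⟩ := hij
      induction i using Fin.cases with
      | zero =>
        induction j using Fin.cases with
        | zero => exact absurd rfl h1
        | succ j => exact ⟨j, rfl, rfl⟩
      | succ i =>
        induction j using Fin.cases with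
        | zero => exact ⟨i, Sym2.eq_swap, Sym2.eq_swap⟩
        | succ j =>
          exfalso
          rcases h2 with h2 | h2 <;> exact absurd h2 (Fin.succ_ne_zero _)
    intro i j i' j' hij hij' hc
    obtain ⟨a, ha1, ha2⟩ := key i j hij
    obtain ⟨a', ha1', ha2'⟩ := key i' j' hij'
    have hc' : φ s((Fin.cases v (fun j => (e j).1) i : Fin n → Bool),
        (Fin.cases v (fun j => (e j).1) j : Fin n → Bool)) =
        φ s((Fin.cases v (fun j => (e j).1) i' : Fin n → Bool),
        (Fin.cases v (fun j => (e j).1) j' : Fin n → Bool)) := hc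
    rw [ha2, ha2'] at hc'
    rw [ha1, ha1']
    by_contra hne
    have hne' : (e a).1 ≠ (e a').1 := by
      intro h5
      apply hne
      rw [e.injective (Subtype.ext h5)]
    have h3 := hN (e a).2
    have h4 := hN (e a').2
    rw [SimpleGraph.mem_neighborFinset] at h3 h4
    exact hφ v _ _ h3 h4 hne' hc'

theorem star_eq (n k : ℕ) (hk : 1 ≤ k) :
    exStar (cube n) (SimpleGraph.starGraph (0 : Fin (k + 1))) =
      min (k - 1) n * 2 ^ (n - 1) :=
  (star_greatest n k hk).csSup_eq

/-! ### the caterpillar is a tree -/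

theorem cat_edge (b : ℕ → Bool) (k i : ℕ) (hi : i < k) :
    (Cat b k).Adj ⟨sp b i, by have := sp_le b i; omega⟩ ⟨i + 1, by omega⟩ :=
  Or.inl ⟨i, rfl, rfl⟩

theorem cat_connected (b : ℕ → Bool) (k : ℕ) : (Cat b k).Connected := by
  have h : ∀ i (hi : i < k + 1), (Cat b k).Reachable ⟨0, by omega⟩ ⟨i, hi⟩ := by
    intro i
    induction i using Nat.strong_induction_on with
    | _ i ih =>
      intro hi
      cases i with
      | zero => exact SimpleGraph.Reachable.refl _
      | succ i =>
        have h1 := sp_le b i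
        exact (ih (sp b i) (by omega) (by omega)).trans (cat_edge b k i (by omega)).reachable
  rw [SimpleGraph.connected_iff_exists_forall_reachable]
  exact ⟨⟨0, by omega⟩, fun w => h w.val w.isLt⟩

theorem cat_tree (b : ℕ → Bool) (k : ℕ) : (Cat b k).IsTree := by
  classical
  rw [SimpleGraph.isTree_iff_connected_and_card]
  refine ⟨cat_connected b k, ?_⟩
  have h1 : (Cat b k).edgeSet = Set.range (fun i : Fin k =>
      s((⟨sp b i.val, by have := sp_le b i.val; have := i.isLt; omega⟩ : Fin (k + 1)),
        (⟨i.val + 1, by have := i.isLt; omega⟩ : Fin (k + 1)))) := by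
    ext e
    induction e using Sym2.ind with
    | _ u v =>
      rw [SimpleGraph.mem_edgeSet, Set.mem_range]
      constructor
      · rintro (⟨i, e1, e2⟩ | ⟨i, e1, e2⟩)
        · exact ⟨⟨i, by have := v.isLt; omega⟩,
            Sym2.eq_iff.2 (Or.inl ⟨Fin.ext e1.symm, Fin.ext e2.symm⟩)⟩
        · exact ⟨⟨i, by have := u.isLt; omega⟩,
            Sym2.eq_iff.2 (Or.inr ⟨Fin.ext e1.symm, Fin.ext e2.symm⟩)⟩
      · rintro ⟨i, hi⟩
        rw [← SimpleGraph.mem_edgeSet, ← hi]
        exact cat_edge b k i.val i.isLt
  rw [h1, Nat.card_range_of_injective]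
  · simp
  · intro i j hij
    simp only [Sym2.eq_iff, Fin.mk.injEq] at hij
    rcases hij with ⟨_, h2⟩ | ⟨h2, h3⟩
    · exact Fin.ext (by omega)
    · have e1 := sp_le b i.val
      have e2 := sp_le b j.val
      exact Fin.ext (by omega)

/-- lower bound for trees -/
theorem star_le {n k : ℕ} (hk : 1 ≤ k) (T : SimpleGraph (Fin (k + 1))) (hT : T.IsTree) :
    exStar (cube n) (SimpleGraph.starGraph (0 : Fin (k + 1))) ≤ exStar (cube n) T := by
  rw [star_eq n k hk]
  have h1 := lower T hT n k (min (k - 1) n) (by simp) (by omega)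
  have h2 := dirs_card n (min (k - 1) n) (min_le_right _ _)
  have h3 : (dirs n (min (k - 1) n)).edgeSet.ncard = min (k - 1) n * 2 ^ (n - 1) := by
    rcases Nat.eq_zero_or_pos n with h0 | h0
    · subst h0
      simp at h2 ⊢
      omega
    · obtain ⟨m, rfl⟩ : ∃ m, n = m + 1 := ⟨n - 1, by omega⟩
      rw [pow_succ, ← mul_assoc] at h2
      rw [Nat.add_sub_cancel]
      omega
  rw [h3] at h1
  apply le_csSup _ h1
  refine ⟨n * 2 ^ n, ?_⟩
  rintro m ⟨H, hH, -, rfl⟩
  have := cube_bound hH
  omega

/-- upper bound -/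
theorem le_star {n k t C : ℕ} (ht : 1 ≤ t) (hk : t ^ 4 ≤ k) (hk1 : C ≤ t) (hk2 : 2 ≤ t)
    (T : SimpleGraph (Fin (k + 1)))
    (h : ∀ H : SimpleGraph (Fin n → Bool), H ≤ cube n → ∀ φ, IsProper H φ →
      (¬ ∃ f : Fin (k + 1) → (Fin n → Bool), IsRainbowCopy H φ T f) →
      t * (2 * H.edgeSet.ncard) ≤ k * (t + C) * 2 ^ n) :
    t * exStar (cube n) T ≤
      (t + (C + 2)) * exStar (cube n) (SimpleGraph.starGraph (0 : Fin (k + 1))) := by
  have hk0 : 1 ≤ k := le_trans (Nat.one_le_pow _ _ ht) hk
  rw [star_eq n k hk0]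
  rcases Set.eq_empty_or_nonempty (sizes (cube n) T) with h0 | h0
  · rw [exStar, h0]
    simp
  · have hmem : exStar (cube n) T ∈ sizes (cube n) T := by
      apply Nat.sSup_mem h0
      refine ⟨n * 2 ^ n, ?_⟩
      rintro m ⟨H, hH, -, rfl⟩
      have := cube_bound hH
      omega
    obtain ⟨H, hH, ⟨φ, hφ, hno⟩, hcard⟩ := hmem
    rw [← hcard]
    have h1 := h H hH φ hφ hno
    have h2 := cube_bound hH
    rcases Nat.eq_zero_or_pos n with hn | hn
    · subst hn
      simp at h2
      rw [h2]
      simp
    · obtain ⟨n', rfl⟩ : ∃ m, n = m + 1 := ⟨n - 1, by omega⟩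
      rw [Nat.add_sub_cancel]
      have e2 : 2 ^ (n' + 1) = 2 * 2 ^ n' := by ring
      rw [e2] at h1 h2
      rcases le_total (k - 1) (n' + 1) with h3 | h3
      · rw [min_eq_left h3]
        obtain ⟨k', rfl⟩ : ∃ m, k = m + 1 := ⟨k - 1, by omega⟩
        rw [Nat.add_sub_cancel]
        have h4 : (k' + 1) * (t + C) ≤ (t + (C + 2)) * k' := by
          have h5 : t + C ≤ 2 * k' := by
            have h6 : 2 * t ≤ t ^ 4 := by
              calc 2 * t ≤ t * t := Nat.mul_le_mul_right _ hk2
                _ = t ^ 2 := by ring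
                _ ≤ t ^ 4 := Nat.pow_le_pow_right ht (by norm_num)
            omega
          nlinarith
        have h5 : t * H.edgeSet.ncard ≤ (k' + 1) * (t + C) * 2 ^ n' := by nlinarith
        calc t * H.edgeSet.ncard ≤ (k' + 1) * (t + C) * 2 ^ n' := h5
          _ ≤ (t + (C + 2)) * k' * 2 ^ n' := Nat.mul_le_mul_right _ h4
          _ = _ := by ring
      · rw [min_eq_right h3]
        have h4 : H.edgeSet.ncard ≤ (n' + 1) * 2 ^ n' := by nlinarith
        calc t * H.edgeSet.ncard ≤ t * ((n' + 1) * 2 ^ n') := Nat.mul_le_mul_left _ h4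
          _ ≤ _ := Nat.mul_le_mul_right _ (by omega)

end Pool.Agent.K4H80.RP
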