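import Pool.Agent.K4H80.RP.Av

set_option autoImplicit false

/-!
# Walkers that read a list of colours
-/

namespace Pool.Agent.K4H80.RP

open Finset

/-- a properly coloured graph: `S v` is the set of colours at `v`, `mv v c` the neighbour of `v`
along the colour `c` -/
structure Host (V C : Type) where
  S : V → Finset C
  mv : V → C → V
  mem : ∀ v c, c ∈ S v → c ∈ S (mv v c)
  inv : ∀ v c, c ∈ S v → mv (mv v c) c = v
  ne : ∀ v c, c ∈ S v → mv v c ≠ v
  inj : ∀ v c c', c ∈ S v → c' ∈ S v → mv v c = mv v c' → c = c'

variable {V C : Type} [DecidableEq V] [DecidableEq C]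

/-- the current vertex after the arrival of the colour `c` at phase `φ` -/
def nx (G : Host V C) (b : ℕ → Bool) (v : V) (φ : ℕ) (c : C) : V := if b φ then G.mv v c else v

/-- the list of the arrivals (current vertex, colour, remaining colours) -/
def tr (G : Host V C) (b : ℕ → Bool) (l : ℕ) : V → ℕ → List C → List (V × C × List C)
  | _, _, [] => []
  | v, φ, (c :: L) =>
    if L.length < l then [] else
      if c ∈ G.S v then (v, c, L) :: tr G b l (nx G b v φ c) (φ + 1) L else tr G b l v φ L

/-- fewer than `m` colours of `v` are left -/
def Bad (G : Host V C) (m : ℕ) (v : V) (L : List C) : Prop := (L.toFinset ∩ G.S v).card < m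

instance (G : Host V C) (m : ℕ) (v : V) (L : List C) : Decidable (Bad G m v L) := by
  unfold Bad; infer_instance

/-- the number of arrivals that hit `u` among the first `K`, before the first bad one -/
def hcl (G : Host V C) (m : ℕ) (u : V) : ℕ → List (V × C × List C) → ℕ
  | 0, _ => 0
  | (_ + 1), [] => 0
  | (K + 1), (s :: l) =>
    if Bad G m s.1 (s.2.1 :: s.2.2) then 0 else
      (if G.mv s.1 s.2.1 = u then 1 else 0) + hcl G m u K l

/-- the number of events charged to an arrival -/
def ee (G : Host V C) (b : ℕ → Bool) (l m K : ℕ) (v : V) (φ : ℕ) (c : C) (L : List C) : ℕ :=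
  (if Bad G m v (c :: L) then 1 else 0) +
    hcl G m v K (tr G b l (nx G b v φ c) (φ + 1) L) +
    hcl G m (G.mv v c) K (tr G b l (nx G b v φ c) (φ + 1) L)

/-- all events -/
def Ev (G : Host V C) (b : ℕ → Bool) (l m K : ℕ) : V → ℕ → List C → ℕ
  | _, _, [] => 0
  | v, φ, (c :: L) =>
    if L.length < l then 0 else
      if c ∈ G.S v then ee G b l m K v φ c L + Ev G b l m K (nx G b v φ c) (φ + 1) L
      else Ev G b l m K v φ L

/-- the events charged to the first `j` arrivals -/
def EvF (G : Host V C) (b : ℕ → Bool) (l m K : ℕ) : ℕ → V → ℕ → List C → ℕ
  | 0, _, _, _ => 0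
  | (_ + 1), _, _, [] => 0
  | (j + 1), v, φ, (c :: L) =>
    if L.length < l then 0 else
      if c ∈ G.S v then ee G b l m K v φ c L + EvF G b l m K j (nx G b v φ c) (φ + 1) L
      else EvF G b l m K (j + 1) v φ L

/-- a rainbow copy of the caterpillar with `k` edges given by the pattern `b` -/
def HasCopy (G : Host V C) (b : ℕ → Bool) (k : ℕ) : Prop :=
  ∃ (y x : ℕ → V) (c : ℕ → C),
    (∀ i < k, c i ∈ G.S (y i) ∧ x i = G.mv (y i) (c i) ∧
      y (i + 1) = (if b i then x i else y i)) ∧
    (∀ i < k, ∀ j < k, c i = c j → i = j) ∧
    (∀ i < k, ∀ j < k, x i = x j → i = j) ∧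
    (∀ i < k, x i ≠ y 0)

section
variable (G : Host V C) (b : ℕ → Bool) (l m K : ℕ)

theorem drop_lemma : ∀ (L : List C) (v : V) (φ j : ℕ), L.Nodup → j ≤ (tr G b l v φ L).length →
    ∃ (v' : V) (L' : List C), L'.Nodup ∧
      (tr G b l v φ L).length = j + (tr G b l v' (φ + j) L').length ∧
      Ev G b l m K v φ L = EvF G b l m K j v φ L + Ev G b l m K v' (φ + j) L' ∧
      (∀ j', EvF G b l m K (j + j') v φ L =
        EvF G b l m K j v φ L + EvF G b l m K j' v' (φ + j) L') := by
  intro L
  induction L with
  | nil =>
    intro v φ j _ hj
    simp only [tr, List.length_nil, Nat.le_zero] at hj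
    subst hj
    refine ⟨v, [], List.nodup_nil, by simp [tr], by simp [Ev, EvF], ?_⟩
    intro j'
    simp [EvF]
  | cons c L ih =>
    intro v φ j hL hj
    cases j with
    | zero =>
      refine ⟨v, c :: L, hL, by simp, by simp [EvF], ?_⟩
      intro j'
      simp [EvF]
    | succ j =>
      have hL' : L.Nodup := (List.nodup_cons.1 hL).2
      by_cases h1 : L.length < l
      · simp [tr, h1] at hj
      · by_cases h2 : c ∈ G.S v
        · have hj' : j ≤ (tr G b l (nx G b v φ c) (φ + 1) L).length := by
            simp only [tr, h1, if_false, h2, if_true, List.length_cons] at hj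
            omega
          obtain ⟨v', L', a1, a2, a3, a4⟩ := ih (nx G b v φ c) (φ + 1) j hL' hj'
          refine ⟨v', L', a1, ?_, ?_, ?_⟩
          · simp only [tr, h1, if_false, h2, if_true, List.length_cons]
            rw [a2]
            rw [show φ + (j + 1) = φ + 1 + j by ring]
            omega
          · simp only [Ev, EvF, h1, if_false, h2, if_true]
            rw [a3, show φ + (j + 1) = φ + 1 + j by ring]
            omega
          · intro j'
            rw [show j + 1 + j' = (j + j') + 1 by ring]
            simp only [EvF, h1, if_false, h2, if_true]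
            rw [a4, show φ + (j + 1) = φ + 1 + j by ring]
            omega
        · have hj' : j + 1 ≤ (tr G b l v φ L).length := by
            simpa only [tr, h1, if_false, h2] using hj
          obtain ⟨v', L', a1, a2, a3, a4⟩ := ih v φ (j + 1) hL' hj'
          refine ⟨v', L', a1, ?_, ?_, ?_⟩
          · simp only [tr, h1, if_false, h2]
            exact a2
          · simp only [Ev, EvF, h1, if_false, h2]
            exact a3
          · intro j'
            have := a4 j'
            rw [show j + 1 + j' = (j + j') + 1 by ring] at this ⊢
            simp only [EvF, h1, if_false, h2]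
            exact this

theorem window [Inhabited C] : ∀ (L : List C) (v : V) (φ j : ℕ), L.Nodup →
    j ≤ (tr G b l v φ L).length → j ≤ K → EvF G b l m K j v φ L = 0 →
    ∃ (y x : ℕ → V) (c : ℕ → C), y 0 = v ∧
      (∀ i < j, c i ∈ G.S (y i) ∧ x i = G.mv (y i) (c i) ∧
        y (i + 1) = (if b (φ + i) then x i else y i) ∧ c i ∈ L) ∧
      (∀ i < j, ∀ i' < j, c i = c i' → i = i') ∧
      (∀ i < j, ∀ i' < j, x i = x i' → i = i') ∧
      (∀ i < j, x i ≠ v) ∧
      (∀ K' u, hcl G m u K' (tr G b l v φ L) = 0 → ∀ i < j, i < K' → x i ≠ u) := by
  intro L
  induction L with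
  | nil =>
    intro v φ j _ hj _ _
    simp only [tr, List.length_nil, Nat.le_zero] at hj
    subst hj
    exact ⟨fun _ => v, fun _ => v, fun _ => default, rfl, by simp, by simp, by simp, by simp,
      by simp⟩
  | cons c L ih =>
    intro v φ j hL hj hjK hE
    cases j with
    | zero =>
      exact ⟨fun _ => v, fun _ => v, fun _ => default, rfl, by simp, by simp, by simp, by simp,
        by simp⟩
    | succ j =>
      have hL' : L.Nodup := (List.nodup_cons.1 hL).2
      have hcL : c ∉ L := (List.nodup_cons.1 hL).1
      by_cases h1 : L.length < l
      · simp [tr, h1] at hj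
      · by_cases h2 : c ∈ G.S v
        · have hj' : j ≤ (tr G b l (nx G b v φ c) (φ + 1) L).length := by
            simp only [tr, h1, if_false, h2, if_true, List.length_cons] at hj
            omega
          simp only [EvF, h1, if_false, h2, if_true] at hE
          have hE1 : ee G b l m K v φ c L = 0 := by omega
          have hE2 : EvF G b l m K j (nx G b v φ c) (φ + 1) L = 0 := by omega
          unfold ee at hE1
          have e1 : ¬ Bad G m v (c :: L) := by
            intro h
            rw [if_pos h] at hE1
            omega
          have e2 : hcl G m v K (tr G b l (nx G b v φ c) (φ + 1) L) = 0 := by omega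
          have e3 : hcl G m (G.mv v c) K (tr G b l (nx G b v φ c) (φ + 1) L) = 0 := by omega
          obtain ⟨y, x, d, a1, a2, a3, a4, a5, a6⟩ :=
            ih (nx G b v φ c) (φ + 1) j hL' hj' (by omega) hE2
          refine ⟨fun i => Nat.casesOn i v (fun i => y i),
            fun i => Nat.casesOn i (G.mv v c) (fun i => x i),
            fun i => Nat.casesOn i c (fun i => d i), rfl, ?_, ?_, ?_, ?_, ?_⟩
          · intro i hi
            cases i with
            | zero =>
              refine ⟨h2, rfl, ?_, List.mem_cons_self⟩
              show y 0 = _
              rw [a1]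
              rfl
            | succ i =>
              obtain ⟨b1, b2, b3, b4⟩ := a2 i (by omega)
              refine ⟨b1, b2, ?_, List.mem_cons_of_mem _ b4⟩
              show y (i + 1) = _
              rw [b3, show φ + (i + 1) = φ + 1 + i by ring]
          · intro i hi i' hi' h
            cases i with
            | zero =>
              cases i' with
              | zero => rfl
              | succ i' =>
                exfalso
                have : c = d i' := h
                rw [this] at hcL
                exact hcL (a2 i' (by omega)).2.2.2
            | succ i =>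
              cases i' with
              | zero =>
                exfalso
                have : d i = c := h
                rw [← this] at hcL
                exact hcL (a2 i (by omega)).2.2.2
              | succ i' =>
                have := a3 i (by omega) i' (by omega) h
                omega
          · intro i hi i' hi' h
            cases i with
            | zero =>
              cases i' with
              | zero => rfl
              | succ i' =>
                exfalso
                exact a6 K (G.mv v c) e3 i' (by omega) (by omega) h.symm
            | succ i =>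
              cases i' with
              | zero =>
                exfalso
                exact a6 K (G.mv v c) e3 i (by omega) (by omega) h
              | succ i' =>
                have := a4 i (by omega) i' (by omega) h
                omega
          · intro i hi
            cases i with
            | zero => exact G.ne v c h2
            | succ i => exact a6 K v e2 i (by omega) (by omega)
          · intro K' u hu i hi hiK
            simp only [tr, h1, if_false, h2, if_true] at hu
            cases K' with
            | zero => omega
            | succ K' =>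
              simp only [hcl, if_neg e1] at hu
              cases i with
              | zero =>
                intro h
                have h' : G.mv v c = u := h
                rw [if_pos h'] at hu
                omega
              | succ i =>
                exact a6 K' u (by omega) i (by omega) (by omega)
        · have hj' : j + 1 ≤ (tr G b l v φ L).length := by
            simpa only [tr, h1, if_false, h2] using hj
          simp only [EvF, h1, if_false, h2] at hE
          obtain ⟨y, x, d, a1, a2, a3, a4, a5, a6⟩ := ih v φ (j + 1) hL' hj' hjK hE
          refine ⟨y, x, d, a1, ?_, a3, a4, a5, ?_⟩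
          · intro i hi
            obtain ⟨b1, b2, b3, b4⟩ := a2 i hi
            exact ⟨b1, b2, b3, List.mem_cons_of_mem _ b4⟩
          · intro K' u hu
            apply a6 K' u
            simpa only [tr, h1, if_false, h2] using hu

theorem per_add {p : ℕ} (hb : ∀ i, b (i + p) = b i) (q i : ℕ) : b (p * q + i) = b i := by
  induction q with
  | zero => simp
  | succ q ih => rw [← ih, ← hb (p * q + i)]; congr 1; ring

/-- without a copy, a trajectory has few arrivals or many events -/
theorem pointwise [Inhabited C] {k p : ℕ} (hk : k ≤ K) (hp : 1 ≤ p)
    (hb : ∀ i, b (i + p) = b i) (hno : ¬ HasCopy G b k) :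
    ∀ (N : ℕ) (L : List C) (v : V) (φ : ℕ), L.Nodup → (tr G b l v φ L).length ≤ N →
      (tr G b l v φ L).length ≤ (k + p - 1) + (k + p) * Ev G b l m K v φ L := by
  intro N
  induction N using Nat.strong_induction_on with
  | _ N ih =>
    intro L v φ hL hN
    by_cases hlen : (tr G b l v φ L).length ≤ k + p - 1
    · exact hlen.trans (Nat.le_add_right _ _)
    · -- an aligned window
      obtain ⟨r, hr, hr2⟩ : ∃ r, r < p ∧ ∃ q, φ + r = p * q := by
        refine ⟨(p - φ % p) % p, Nat.mod_lt _ (by omega), ?_⟩
        have h1 : (φ + (p - φ % p) % p) % p = 0 := by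
          rw [Nat.add_mod, Nat.mod_mod]
          rcases Nat.eq_zero_or_pos (φ % p) with h0 | h0
          · rw [h0]; simp
          · rw [Nat.mod_eq_of_lt (show p - φ % p < p by omega)]
            have := Nat.mod_lt φ (show 0 < p by omega)
            rw [show φ % p + (p - φ % p) = p by omega, Nat.mod_self]
        exact (Nat.dvd_of_mod_eq_zero h1)
      obtain ⟨q, hq⟩ := hr2
      obtain ⟨v1, L1, a1, a2, a3, a4⟩ := drop_lemma G b l m K L v φ r hL (by omega)
      have hwin : EvF G b l m K k v1 (φ + r) L1 ≠ 0 := by
        intro h0
        obtain ⟨y, x, c, b1, b2, b3, b4, b5, -⟩ :=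
          window G b l m K L1 v1 (φ + r) k a1 (by omega) hk h0
        apply hno
        refine ⟨y, x, c, ?_, b3, b4, ?_⟩
        · intro i hi
          obtain ⟨d1, d2, d3, -⟩ := b2 i hi
          rw [hq, per_add b hb] at d3
          exact ⟨d1, d2, d3⟩
        · rw [b1]; exact b5
      obtain ⟨v2, L2, c1, c2, c3, c4⟩ := drop_lemma G b l m K L v φ (r + k) hL (by omega)
      obtain ⟨v3, L3, d1, d2, d3, d4⟩ := drop_lemma G b l m K L v φ (k + p) hL (by omega)
      have hF : 1 ≤ EvF G b l m K (k + p) v φ L := by
        have h5 := c4 (p - r)
        rw [show r + k + (p - r) = k + p by omega] at h5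
        have h6 := a4 k
        omega
      have h7 := ih (tr G b l v3 (φ + (k + p)) L3).length (by omega) L3 v3 (φ + (k + p)) d1 le_rfl
      rw [d2, d3]
      have h8 : (k + p) * 1 ≤ (k + p) * EvF G b l m K (k + p) v φ L := Nat.mul_le_mul_left _ hF
      rw [mul_add]
      omega

end

end Pool.Agent.K4H80.RP
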